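import Mathlib
import Pool.Agent.H6.PerronR

/-!
# KernB: bounds for the trapezoidal Perron kernel

`kernR X1 X2 w = (X2^(w+1) - X1^(w+1))/(w(w+1)) = (1/w) ∫_{X1}^{X2} u^w du`.
`kern1`: `‖u^w‖ = u^(re w) ≤ X2^(re w)` for `u ≤ X2`, `re w ≥ 0`.
`kern2`: triangle inequality, `‖w+1‖ ≥ ‖w‖` for `re w ≥ 0`.  `kern_diff`: differentiable for
`re w > 0`.  About 70 lines.
-/

set_option autoImplicit false

open Complex

namespace Pool.Agent.H76.PS

open Pool.Agent.H6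

theorem kern1 {X1 X2 : ℝ} (h1 : 0 < X1) (h12 : X1 ≤ X2) {w : ℂ} (hw : 0 < w.re) :
    ‖kernR X1 X2 w‖ ≤ (X2 - X1) * X2 ^ w.re / ‖w‖ := by
  have hw0 : w ≠ 0 := by
    rintro rfl
    simp at hw
  have hw1 : w + 1 ≠ 0 := by
    intro h
    have := congrArg Complex.re h
    simp at this
    linarith
  have hi : ∫ x in X1..X2, (x : ℂ) ^ w = ((X2 : ℂ) ^ (w + 1) - (X1 : ℂ) ^ (w + 1)) / (w + 1) :=
    integral_cpow (Or.inl (by linarith))
  have he : kernR X1 X2 w = (∫ x in X1..X2, (x : ℂ) ^ w) / w := by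
    rw [hi]
    unfold kernR
    rw [div_div, mul_comm (w + 1) w]
  rw [he, norm_div]
  have hb : ‖∫ x in X1..X2, (x : ℂ) ^ w‖ ≤ X2 ^ w.re * |X2 - X1| := by
    refine intervalIntegral.norm_integral_le_of_norm_le_const fun x hx ↦ ?_
    rw [Set.uIoc_of_le h12] at hx
    have hx0 : 0 < x := lt_trans h1 hx.1
    rw [norm_cpow_eq_rpow_re_of_pos hx0]
    exact Real.rpow_le_rpow hx0.le hx.2 hw.le
  rw [abs_of_nonneg (sub_nonneg.mpr h12)] at hb
  rw [mul_comm (X2 - X1)]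
  exact div_le_div_of_nonneg_right hb (norm_nonneg _)

theorem kern2 {X1 X2 : ℝ} (h1 : 0 < X1) (h12 : X1 ≤ X2) {w : ℂ} (hw : 0 < w.re) :
    ‖kernR X1 X2 w‖ ≤ 2 * X2 ^ (w.re + 1) / ‖w‖ ^ 2 := by
  have h2 : 0 < X2 := lt_of_lt_of_le h1 h12
  have hw0 : w ≠ 0 := by
    rintro rfl
    simp at hw
  have hn : 0 < ‖w‖ := norm_pos_iff.mpr hw0
  have hle : ‖w‖ ≤ ‖w + 1‖ := by
    rw [← Real.sqrt_sq (norm_nonneg w), ← Real.sqrt_sq (norm_nonneg (w + 1))]
    apply Real.sqrt_le_sqrt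
    rw [← Complex.normSq_eq_norm_sq, ← Complex.normSq_eq_norm_sq, Complex.normSq_apply,
      Complex.normSq_apply]
    simp only [Complex.add_re, Complex.add_im, Complex.one_re, Complex.one_im]
    nlinarith
  unfold kernR
  rw [norm_div, norm_mul]
  have hnum : ‖(X2 : ℂ) ^ (w + 1) - (X1 : ℂ) ^ (w + 1)‖ ≤ 2 * X2 ^ (w.re + 1) := by
    refine (norm_sub_le _ _).trans ?_
    rw [norm_cpow_eq_rpow_re_of_pos h2, norm_cpow_eq_rpow_re_of_pos h1]
    simp only [Complex.add_re, Complex.one_re]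
    have := Real.rpow_le_rpow h1.le h12 (by linarith : (0 : ℝ) ≤ w.re + 1)
    linarith
  have hden : ‖w‖ ^ 2 ≤ ‖w‖ * ‖w + 1‖ := by
    rw [sq]
    exact mul_le_mul_of_nonneg_left hle hn.le
  exact div_le_div₀ (by positivity) hnum (by positivity) hden

theorem kern_diff {X1 X2 : ℝ} (h1 : 0 < X1) (h2 : 0 < X2) {w : ℂ} (hw : 0 < w.re) :
    DifferentiableAt ℂ (kernR X1 X2) w := by
  have hw0 : w ≠ 0 := by
    rintro rfl
    simp at hw
  have hw1 : w + 1 ≠ 0 := by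
    intro h
    have := congrArg Complex.re h
    simp at this
    linarith
  have e1 : DifferentiableAt ℂ (fun s : ℂ ↦ (X2 : ℂ) ^ (s + 1)) w :=
    (differentiableAt_id.add_const 1).const_cpow
      (Or.inl (by exact_mod_cast h2.ne'))
  have e2 : DifferentiableAt ℂ (fun s : ℂ ↦ (X1 : ℂ) ^ (s + 1)) w :=
    (differentiableAt_id.add_const 1).const_cpow
      (Or.inl (by exact_mod_cast h1.ne'))
  have e3 : DifferentiableAt ℂ (fun s : ℂ ↦ s * (s + 1)) w :=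
    differentiableAt_id.mul (differentiableAt_id.add_const 1)
  exact (e1.sub e2).div e3 (mul_ne_zero hw0 hw1)

end Pool.Agent.H76.PS
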