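import Mathlib
import Pool.Agent.H76.CR.ZFacts

/-!
# Cmpct: zeros of bounded height stay away from `Re = 1`

If all zeros with `re ≥ σ1` (`σ1 < 1`) have `|im| ≤ t1`, then some `σ0 < 1` has no zeros with
`re ≥ σ0`: the zeros in the compact rectangle `[σ1, 1] × [-t1, t1]` are finitely many (`zetaPole`,
`near_finite` in `H76/CR/ZFacts.lean`, or isolated zeros of an analytic function on a compact set;
`ζ s ≠ 0` for `re s ≥ 1`), so their real parts have a maximum `< 1`.  Alternatively: `zetaPole` is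
continuous, not 0 on `{1} × [-t1, t1]`, hence not 0 near it.  About 60 lines.
-/

set_option autoImplicit false

open Complex

namespace Pool.Agent.H76.PS

open Pool.Agent.H6 Pool.Agent.H6.Win

theorem cmpct {σ1 t1 : ℝ} (hσ1 : σ1 < 1)
    (h : ∀ s : ℂ, riemannZeta s = 0 → σ1 ≤ s.re → |s.im| ≤ t1) :
    ∃ σ0 : ℝ, 1 / 2 < σ0 ∧ σ0 < 1 ∧ ∀ s : ℂ, σ0 ≤ s.re → riemannZeta s ≠ 0 := by
  have hfin : (insert (max σ1 (1 / 2)) (Complex.re '' {u : ℂ | riemannZeta u = 0 ∧
      σ1 ≤ u.re})).Finite := by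
    refine Set.Finite.insert _ (Set.Finite.image _ ?_)
    refine (zeros_finite (2 - σ1 + t1)).subset ?_
    rintro u ⟨hu, hr⟩
    have hre := Pool.Agent.H76.CR.re_lt_one hu
    have hu1 : u ≠ 1 := by
      rintro rfl
      rw [Complex.one_re] at hre
      exact lt_irrefl _ hre
    refine ⟨?_, (Pool.Agent.H76.CR.zetaPole_eq_zero_iff hu1).2 hu⟩
    rw [Metric.mem_closedBall, dist_eq_norm]
    refine (Complex.norm_le_abs_re_add_abs_im _).trans ?_
    have h1 : |(u - 2).re| ≤ 2 - σ1 := by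
      have h2 : (u - 2).re = u.re - 2 := by simp
      rw [h2, abs_of_nonpos (by linarith)]
      linarith
    have h3 : |(u - 2).im| ≤ t1 := by
      have h4 : (u - 2).im = u.im := by simp
      rw [h4]
      exact h u hu hr
    linarith
  obtain ⟨m, hm, hmax⟩ := Set.exists_max_image _ id hfin ⟨_, Set.mem_insert _ _⟩
  have hm1 : m < 1 := by
    rcases hm with rfl | ⟨u, ⟨hu, -⟩, rfl⟩
    · exact max_lt hσ1 (by norm_num)
    · exact Pool.Agent.H76.CR.re_lt_one hu
  have hm2 : max σ1 (1 / 2) ≤ m := hmax _ (Set.mem_insert _ _)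
  have hm3 : (1:ℝ) / 2 ≤ m := (le_max_right _ _).trans hm2
  refine ⟨(m + 1) / 2, by linarith, by linarith, fun s hs h0 => ?_⟩
  have hs1 : σ1 ≤ s.re := (le_max_left σ1 (1 / 2)).trans (hm2.trans (by linarith))
  have h5 : s.re ≤ m := hmax _ (Set.mem_insert_of_mem _ ⟨s, ⟨h0, hs1⟩, rfl⟩)
  linarith

theorem zeta_conj_zero {s : ℂ} (h : riemannZeta s = 0) :
    riemannZeta ((starRingEnd ℂ) s) = 0 := by
  rw [riemannZeta_conj, h, map_zero]

end Pool.Agent.H76.PS
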