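import Mathlib
import Pool.Agent.H76.SV.LargeV

/-!
# Uncr: where `ζ` is small, zeros are uncrowded

By contradiction with `largeV`: `c' = c'_largeV`; it gives `s` with `re s ≥ re ρ - 2εd ≥ r0`,
`‖s-ρ‖ ≤ C4` and `N^(c'd) < ‖ζ s‖ ≤ B |im s|^(η max(1 - re s, 0)) log |im s|`.
`1 - re s ≤ d + 2εd ≤ 2d`, `2 ≤ |im s| ≤ 2 γ` (`γ = im ρ ≥ C`), `log(2γ) ≤ 2 log γ`, so
`c' d log N < log B + 4 η d log γ + log log(2γ)`; but `4 η d log γ ≤ (c'/2) d log N` by the hypothesis
`8 η/c' log γ ≤ log N`, and `log B + log log(2γ) ≤ log B + log 2 + log log(γ+N) ≤ (c'/2) d log N`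
by `C log log (γ+N) ≤ d log N`, `C` large (`log log(γ+N) ≥ 1` for `γ ≥ C`).
`largeV` also needs `C4 ≤ d log N` and `C4 log log N ≤ d log N`: the same hypothesis (`N ≥ e` because
`d log N > 0` large).  About 90 lines.
-/

set_option autoImplicit false

open Complex

namespace Pool.Agent.H76.PS

open Pool.Agent.H76.CR Pool.Agent.H52.Unc

theorem uncr {K ε c : ℝ} (hK : 0 < K) (hε : 0 < ε) (hε1 : ε ≤ 1 / 4) (hc : 0 < c) :
    ∃ c' : ℝ, 0 < c' ∧ ∀ η r0 B : ℝ, 0 < η → 1 ≤ B →
      (∀ s : ℂ, r0 ≤ s.re → 2 ≤ |s.im| →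
        ‖riemannZeta s‖ ≤ B * |s.im| ^ (η * max (1 - s.re) 0) * Real.log |s.im|) →
      ∃ C : ℝ, 1 ≤ C ∧ ∀ (ρ : ℂ) (d N : ℝ), riemannZeta ρ = 0 → 0 < d → d ≤ 1 / 2 →
        1 - d ≤ ρ.re → r0 ≤ ρ.re - 2 * ε * d → C ≤ ρ.im → 1 ≤ N →
        8 * η / c' * Real.log ρ.im ≤ Real.log N →
        C * Real.log (Real.log (ρ.im + N)) ≤ d * Real.log N →
        (rz (K * d) (ρ.re - ε * d) ρ : ℝ) < c * d * Real.log N := by
  obtain ⟨c', C0, hc', hC0, hL⟩ := Pool.Agent.H76.SV.largeV hK hε (by linarith) hc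
  refine ⟨c', hc', ?_⟩
  intro η r0 B hη hB hbd
  have hlB : 0 ≤ Real.log B := Real.log_nonneg hB
  have hl2 : 0 < Real.log 2 := Real.log_pos (by norm_num)
  set E : ℝ := 2 * (Real.log B + Real.log 2 + 1) / c' with hE
  have hE0 : 0 ≤ E := by rw [hE]; positivity
  refine ⟨2 * C0 + 16 + E, by linarith, ?_⟩
  intro ρ d N hρ hd hd1 hre hr0 hCim hN hlog hloglog
  by_contra hcon
  push Not at hcon
  set γ : ℝ := ρ.im with hγ
  have hγ16 : 16 ≤ γ := by linarith
  have hγ0 : 0 < γ := by linarith
  have hlN0 : 0 ≤ Real.log N := Real.log_nonneg hN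
  -- log log (γ + N) ≥ 1
  have hee : Real.exp (Real.exp 1) ≤ γ + N := by
    have h1 : Real.exp 1 < 2.7182818286 := Real.exp_one_lt_d9
    have h2 : Real.exp (Real.exp 1) ≤ 16 := by
      have h3 : Real.exp (Real.exp 1) ≤ Real.exp (4 * (69 / 100)) := by
        apply Real.exp_le_exp.2; linarith
      have h4 : (69 / 100 : ℝ) ≤ Real.log 2 := by
        have := Real.log_two_gt_d9; linarith
      have h5 : Real.exp (4 * (69 / 100)) ≤ Real.exp (4 * Real.log 2) := by
        apply Real.exp_le_exp.2; linarith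
      have h6 : Real.exp (4 * Real.log 2) = 16 := by
        have : Real.exp (4 * Real.log 2) = Real.exp (Real.log 2) ^ 4 := by
          rw [← Real.exp_nat_mul]; norm_num
        rw [this, Real.exp_log (by norm_num)]; norm_num
      linarith
    linarith
  have hlog1 : Real.exp 1 ≤ Real.log (γ + N) := by
    rw [Real.le_log_iff_exp_le (by linarith)]; exact hee
  have hL0 : 0 < Real.log (γ + N) := lt_of_lt_of_le (Real.exp_pos 1) hlog1
  have hLL : 1 ≤ Real.log (Real.log (γ + N)) := by
    rw [Real.le_log_iff_exp_le hL0]; exact hlog1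
  set LL : ℝ := Real.log (Real.log (γ + N)) with hLLdef
  -- d log N is large
  have hdl : 2 * C0 + 16 + E ≤ d * Real.log N := by
    calc 2 * C0 + 16 + E ≤ (2 * C0 + 16 + E) * LL := le_mul_of_one_le_right (by linarith) hLL
      _ ≤ d * Real.log N := hloglog
  have hlN : 2 * C0 + 16 + E ≤ Real.log N := by
    calc 2 * C0 + 16 + E ≤ d * Real.log N := hdl
      _ ≤ 1 * Real.log N := by gcongr; linarith
      _ = Real.log N := one_mul _
  have hlN1 : 0 < Real.log N := by linarith
  have hLLN : Real.log (Real.log N) ≤ LL := by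
    apply Real.log_le_log hlN1
    apply Real.log_le_log (by linarith)
    linarith
  obtain ⟨s, hs1, hs2, hs3⟩ := hL ρ d N hρ hd hd1 hre
    (by rw [← hγ, abs_of_pos hγ0]; linarith) hN (by linarith)
    (by
      calc C0 * Real.log (Real.log N) ≤ C0 * LL := by gcongr
        _ ≤ (2 * C0 + 16 + E) * LL := by gcongr; linarith
        _ ≤ d * Real.log N := hloglog) hcon
  -- the imaginary part of `s`
  have him : |s.im - γ| ≤ C0 := by
    have h1 : |(s - ρ).im| ≤ ‖s - ρ‖ := Complex.abs_im_le_norm _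
    rw [Complex.sub_im] at h1
    exact h1.trans hs2
  have hA := abs_le.1 him
  have hs0 : 0 < s.im := by linarith
  have habs : |s.im| = s.im := abs_of_pos hs0
  have hb := hbd s (hr0.trans hs1) (by rw [habs]; linarith)
  rw [habs] at hb
  have hs2γ : s.im ≤ 2 * γ := by linarith
  have hs2 : 2 ≤ s.im := by linarith
  have hmax : max (1 - s.re) 0 ≤ 2 * d := by
    apply max_le
    · have : 2 * ε * d ≤ 2 * (1 / 4) * d := by gcongr
      linarith
    · linarith
  have hmax0 : 0 ≤ max (1 - s.re) 0 := le_max_right _ _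
  have hl2γ : Real.log (2 * γ) ≤ 2 * Real.log γ := by
    rw [Real.log_mul (by norm_num) hγ0.ne']
    have : Real.log 2 ≤ Real.log γ := Real.log_le_log (by norm_num) (by linarith)
    linarith
  have hlγ0 : 0 < Real.log γ := Real.log_pos (by linarith)
  have hlsim : 0 < Real.log s.im := Real.log_pos (by linarith)
  have hBpos : 0 < B := by linarith
  have hpow0 : 0 < s.im ^ (η * max (1 - s.re) 0) := Real.rpow_pos_of_pos hs0 _
  -- take logs
  have hNpos : 0 < N := by linarith
  have h1 : c' * d * Real.log N < Real.log (B * s.im ^ (η * max (1 - s.re) 0) * Real.log s.im) := by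
    rw [← Real.log_rpow hNpos]
    apply Real.log_lt_log (Real.rpow_pos_of_pos hNpos _)
    exact lt_of_lt_of_le hs3 hb
  rw [Real.log_mul (by positivity) hlsim.ne', Real.log_mul hBpos.ne' hpow0.ne',
    Real.log_rpow hs0] at h1
  have h2 : η * max (1 - s.re) 0 * Real.log s.im ≤ 4 * η * d * Real.log γ := by
    calc η * max (1 - s.re) 0 * Real.log s.im ≤ η * (2 * d) * Real.log (2 * γ) := by
          gcongr
      _ ≤ η * (2 * d) * (2 * Real.log γ) := by gcongr
      _ = 4 * η * d * Real.log γ := by ring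
  have h3 : 4 * η * d * Real.log γ ≤ c' / 2 * (d * Real.log N) := by
    have h4 : 8 * η * Real.log γ ≤ c' * Real.log N := by
      have h5 : c' * (8 * η / c' * Real.log γ) ≤ c' * Real.log N := by gcongr
      have h6 : c' * (8 * η / c' * Real.log γ) = 8 * η * Real.log γ := by
        field_simp
      linarith
    have h5 : d * (8 * η * Real.log γ) ≤ d * (c' * Real.log N) := by gcongr
    linarith
  have h4 : Real.log (Real.log s.im) ≤ Real.log 2 + LL := by
    calc Real.log (Real.log s.im) ≤ Real.log (2 * Real.log (γ + N)) := by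
          apply Real.log_le_log hlsim
          calc Real.log s.im ≤ Real.log (2 * γ) := Real.log_le_log hs0 hs2γ
            _ ≤ 2 * Real.log γ := hl2γ
            _ ≤ 2 * Real.log (γ + N) := by
                have : Real.log γ ≤ Real.log (γ + N) := Real.log_le_log hγ0 (by linarith)
                linarith
      _ = Real.log 2 + LL := by rw [Real.log_mul (by norm_num) hL0.ne']
  have h5 : Real.log B + Real.log 2 + LL ≤ c' / 2 * (d * Real.log N) := by
    have h6 : Real.log B + Real.log 2 + LL ≤ (Real.log B + Real.log 2 + 1) * LL := by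
      have h7 : Real.log B + Real.log 2 ≤ (Real.log B + Real.log 2) * LL :=
        le_mul_of_one_le_right (by linarith) hLL
      linarith
    have h8 : c' / 2 * E = Real.log B + Real.log 2 + 1 := by
      rw [hE]; field_simp
    calc Real.log B + Real.log 2 + LL ≤ (Real.log B + Real.log 2 + 1) * LL := h6
      _ = c' / 2 * (E * LL) := by rw [← h8]; ring
      _ ≤ c' / 2 * ((2 * C0 + 16 + E) * LL) := by gcongr; linarith
      _ ≤ c' / 2 * (d * Real.log N) := by gcongr
  have h9 : c' / 2 * (d * Real.log N) + c' / 2 * (d * Real.log N) = c' * d * Real.log N := by ring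
  linarith

end Pool.Agent.H76.PS
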