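import Mathlib
import Pool.Agent.H52.Unc.ZsumK
import Pool.Agent.H20.SW.Approx

/-!
# ZNear1: `ζ` near the line `Re = 1`, by van der Corput

`zeta_near`: let `k ≥ 1/η`, `k ≥ 1`, and `δ_k, C_k` from `zsumK k` (with `1 ≤ |t| ≤ A^k`), `t = Im s`,
`σ = Re s`.  Put `δ = min δ_k (1/4)`, `N = ⌈t^2⌉₊`.  By `zeta₁_approx` (`H20/SW/Approx`)
`‖ζ s‖ ≤ ‖∑_{n < N} n^(-s)‖ + N^(1-σ)/‖s - 1‖ + (‖s‖/σ) N^(-σ)`, and the last two terms are at most 5.
The case `σ ≥ 1`: trivially `∑_{n < N} n^(-σ) ≤ 1 + log N`.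
The terms `n < A0 = ⌈|t|^(1/k)⌉₊`: `∑ n^(-σ) ≤ A0^(1-σ) (1 + log A0)`.
The terms `A0 ≤ n < N`: dyadic blocks `[A, B]`, `B ≤ 2A`, `|t| ≤ A^k`; Abel summation and
`zsumK`: `≤ A^(-σ) C_k (A^(1-δ_k) + A/|t|) ≤ 3 C_k` (`A ≤ 2 t^2`), at most `log N/log 2 + 1` blocks.
`zeta_wide`: near 1 by `zeta_near` with `η = 1`; for `1/2 ≤ Re s ≤ 1 - δ`: `‖ζ s‖ ≤ 4 |t| ≤
4 |t|^((1/δ)(1-σ))`.
-/

set_option autoImplicit false

open Complex

namespace Pool.Agent.H76.PS

/-- the bound from `zeta₁_approx` -/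
private lemma zn_approx {s : ℂ} (hs : 0 < s.re) (hs1 : s ≠ 1) {N : ℕ} (hN : 1 ≤ N) :
    ‖riemannZeta s‖ ≤ ‖∑ i ∈ Finset.Ico 1 N, (i : ℂ) ^ (-s)‖ + (N : ℝ) ^ (1 - s.re) / ‖s - 1‖ +
      (‖s‖ / s.re) * (N : ℝ) ^ (-s.re) := by
  have h1 := Pool.Agent.SW.zeta₁_approx hs hN
  have hs0 : 0 < ‖s - 1‖ := norm_pos_iff.2 (sub_ne_zero.2 hs1)
  have hN0 : (0 : ℝ) < N := by exact_mod_cast hN
  have h2 : ‖(N : ℂ) ^ (1 - s)‖ = (N : ℝ) ^ (1 - s.re) := by
    have := norm_cpow_eq_rpow_re_of_pos hN0 (1 - s)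
    simpa using this
  have h3 : riemannZeta₁ s = (s - 1) * riemannZeta s := by
    rw [riemannZeta_eq_inv_sub_mul hs1, ← mul_assoc, mul_inv_cancel₀ (sub_ne_zero.2 hs1), one_mul]
  rw [h3] at h1
  have h4 : (s - 1) * riemannZeta s = ((s - 1) * riemannZeta s -
      ((s - 1) * ∑ i ∈ Finset.Ico 1 N, (i : ℂ) ^ (-s) + (N : ℂ) ^ (1 - s))) +
      (s - 1) * ∑ i ∈ Finset.Ico 1 N, (i : ℂ) ^ (-s) + (N : ℂ) ^ (1 - s) := by ring
  have h5 : ‖s - 1‖ * ‖riemannZeta s‖ ≤ ‖s - 1‖ * (‖∑ i ∈ Finset.Ico 1 N, (i : ℂ) ^ (-s)‖ +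
      (N : ℝ) ^ (1 - s.re) / ‖s - 1‖ + (‖s‖ / s.re) * (N : ℝ) ^ (-s.re)) := by
    rw [← norm_mul, h4]
    refine (norm_add₃_le).trans ?_
    rw [norm_mul, h2]
    have h6 : ‖s - 1‖ * ((N : ℝ) ^ (1 - s.re) / ‖s - 1‖) = (N : ℝ) ^ (1 - s.re) := by
      field_simp
    rw [mul_add, mul_add, h6]
    nlinarith
  exact le_of_mul_le_mul_left h5 hs0

private lemma zn_norm {s : ℂ} {i : ℕ} (hi : 1 ≤ i) : ‖(i : ℂ) ^ (-s)‖ = (i : ℝ) ^ (-s.re) := by
  have := norm_cpow_eq_rpow_re_of_pos (x := (i : ℝ)) (by exact_mod_cast hi) (-s)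
  simpa using this

private lemma zn_harm (M : ℕ) :
    ∑ i ∈ Finset.Ico 1 M, ((i : ℝ))⁻¹ ≤ 1 + Real.log M := by
  have h1 := harmonic_le_one_add_log M
  refine le_trans ?_ h1
  rw [harmonic_eq_sum_Icc]
  push_cast
  apply Finset.sum_le_sum_of_subset_of_nonneg
  · intro i hi
    simp only [Finset.mem_Ico, Finset.mem_Icc] at hi ⊢
    omega
  · intro i _ _
    positivity

/-- the head -/
private lemma zn_head {s : ℂ} (hσ : s.re ≤ 1) (M : ℕ) (hM : 1 ≤ M) :
    ‖∑ i ∈ Finset.Ico 1 M, (i : ℂ) ^ (-s)‖ ≤ (M : ℝ) ^ (1 - s.re) * (1 + Real.log M) := by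
  refine (norm_sum_le _ _).trans ?_
  have h1 : ∀ i ∈ Finset.Ico 1 M, ‖(i : ℂ) ^ (-s)‖ ≤ (M : ℝ) ^ (1 - s.re) * ((i : ℝ))⁻¹ := by
    intro i hi
    obtain ⟨hi1, hiM⟩ := Finset.mem_Ico.1 hi
    have hi0 : (0 : ℝ) < i := by exact_mod_cast hi1
    rw [zn_norm hi1]
    have h2 : (i : ℝ) ^ (-s.re) = (i : ℝ) ^ (1 - s.re) * ((i : ℝ))⁻¹ := by
      rw [← Real.rpow_neg_one (i : ℝ), ← Real.rpow_add hi0]
      congr 1
      ring
    rw [h2]
    apply mul_le_mul_of_nonneg_right _ (by positivity)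
    apply Real.rpow_le_rpow hi0.le _ (by linarith)
    exact_mod_cast hiM.le
  refine (Finset.sum_le_sum h1).trans ?_
  rw [← Finset.mul_sum]
  exact mul_le_mul_of_nonneg_left (zn_harm M) (by positivity)

/-- the case `σ ≥ 1` -/
private lemma zn_right {s : ℂ} (hσ : 1 ≤ s.re) (M : ℕ) (hM : 1 ≤ M) :
    ‖∑ i ∈ Finset.Ico 1 M, (i : ℂ) ^ (-s)‖ ≤ 1 + Real.log M := by
  refine (norm_sum_le _ _).trans ?_
  have h1 : ∀ i ∈ Finset.Ico 1 M, ‖(i : ℂ) ^ (-s)‖ ≤ ((i : ℝ))⁻¹ := by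
    intro i hi
    obtain ⟨hi1, hiM⟩ := Finset.mem_Ico.1 hi
    rw [zn_norm hi1, ← Real.rpow_neg_one (i : ℝ)]
    apply Real.rpow_le_rpow_of_exponent_le (by exact_mod_cast hi1)
    linarith
  exact (Finset.sum_le_sum h1).trans (zn_harm M)

/-- Abel summation with decreasing weights -/
private lemma zn_abel (a : ℕ → ℂ) (w : ℕ → ℝ) {M : ℝ} {A B : ℕ} (hAB : A ≤ B)
    (hw : ∀ n, A ≤ n → w (n + 1) ≤ w n) (hw0 : ∀ n, A ≤ n → 0 ≤ w n)
    (hg : ∀ m, A ≤ m → m ≤ B → ‖∑ n ∈ Finset.Icc A m, a n‖ ≤ M) :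
    ‖∑ n ∈ Finset.Icc A B, (w n : ℂ) * a n‖ ≤ w A * M := by
  have key : ‖∑ n ∈ Finset.Icc A B, (w n : ℂ) * a n -
      (w B : ℂ) * ∑ n ∈ Finset.Icc A B, a n‖ ≤ (w A - w B) * M := by
    induction B, hAB using Nat.le_induction with
    | base => simp
    | succ B hAB ih =>
      have ih' := ih (fun m h1 h2 => hg m h1 (by omega))
      rw [← Finset.insert_Icc_right_eq_Icc_add_one (by omega : A ≤ B + 1),
        Finset.sum_insert (by simp), Finset.sum_insert (by simp)]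
      have e : (w (B + 1) : ℂ) * a (B + 1) + ∑ n ∈ Finset.Icc A B, (w n : ℂ) * a n -
          (w (B + 1) : ℂ) * (a (B + 1) + ∑ n ∈ Finset.Icc A B, a n) =
          (∑ n ∈ Finset.Icc A B, (w n : ℂ) * a n - (w B : ℂ) * ∑ n ∈ Finset.Icc A B, a n) +
          (((w B - w (B + 1) : ℝ) : ℂ)) * ∑ n ∈ Finset.Icc A B, a n := by
        push_cast
        ring
      rw [e]
      have h1 : ‖(((w B - w (B + 1) : ℝ) : ℂ)) * ∑ n ∈ Finset.Icc A B, a n‖ ≤
          (w B - w (B + 1)) * M := by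
        rw [norm_mul, Complex.norm_real, Real.norm_eq_abs,
          abs_of_nonneg (by linarith [hw B hAB])]
        exact mul_le_mul_of_nonneg_left (hg B hAB (by omega)) (by linarith [hw B hAB])
      refine (norm_add_le _ _).trans ?_
      linarith
  have h1 : ‖(w B : ℂ) * ∑ n ∈ Finset.Icc A B, a n‖ ≤ w B * M := by
    rw [norm_mul, Complex.norm_real, Real.norm_eq_abs, abs_of_nonneg (hw0 B hAB)]
    exact mul_le_mul_of_nonneg_left (hg B hAB le_rfl) (hw0 B hAB)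
  calc ‖∑ n ∈ Finset.Icc A B, (w n : ℂ) * a n‖
      = ‖(∑ n ∈ Finset.Icc A B, (w n : ℂ) * a n - (w B : ℂ) * ∑ n ∈ Finset.Icc A B, a n) +
          (w B : ℂ) * ∑ n ∈ Finset.Icc A B, a n‖ := by rw [sub_add_cancel]
    _ ≤ (w A - w B) * M + w B * M := (norm_add_le _ _).trans (add_le_add key h1)
    _ = w A * M := by ring

/-- one block -/
private lemma zn_block {s : ℂ} (hσ : 0 ≤ s.re) {M : ℝ} {A B : ℕ} (hA : 1 ≤ A) (hAB : A ≤ B)
    (hg : ∀ m, A ≤ m → m ≤ B → ‖∑ n ∈ Finset.Icc A m, (n : ℂ) ^ (-(s.im * I))‖ ≤ M) :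
    ‖∑ n ∈ Finset.Icc A B, (n : ℂ) ^ (-s)‖ ≤ (A : ℝ) ^ (-s.re) * M := by
  have h1 := zn_abel (fun n => (n : ℂ) ^ (-(s.im * I))) (fun n => (n : ℝ) ^ (-s.re)) hAB
    (by
      intro n hn
      have hn0 : (0 : ℝ) < n := by
        have : 0 < n := by omega
        exact_mod_cast this
      apply Real.rpow_le_rpow_of_nonpos hn0 _ (by linarith)
      push_cast
      linarith)
    (fun n _ => by positivity) hg
  refine le_trans (le_of_eq ?_) h1
  congr 1
  apply Finset.sum_congr rfl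
  intro n hn
  have hn1 : 1 ≤ n := hA.trans (Finset.mem_Icc.mp hn).1
  have hn0 : (n : ℂ) ≠ 0 := by
    have : n ≠ 0 := by omega
    exact_mod_cast this
  have h2 : (((n : ℝ) ^ (-s.re) : ℝ) : ℂ) = (n : ℂ) ^ ((-s.re : ℝ) : ℂ) := by
    rw [Complex.ofReal_cpow (by positivity)]
    simp
  rw [h2, ← Complex.cpow_add _ _ hn0]
  congr 1
  have h3 := Complex.re_add_im s
  push_cast
  linear_combination h3

/-- the dyadic decomposition -/
private lemma zn_dyadic (f : ℕ → ℂ) {D : ℝ} (hD : 0 ≤ D) {A0 N : ℕ}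
    (h : ∀ A B : ℕ, A0 ≤ A → A ≤ B → B ≤ 2 * A → A ≤ N → ‖∑ n ∈ Finset.Icc A B, f n‖ ≤ D) :
    ∀ j m : ℕ, m ≤ 2 ^ j * A0 → m ≤ N → ‖∑ n ∈ Finset.Ico A0 m, f n‖ ≤ j * D := by
  intro j
  induction j with
  | zero =>
    intro m hm _
    have : Finset.Ico A0 m = ∅ := Finset.Ico_eq_empty (by omega)
    rw [this]
    simp
  | succ j ih =>
    intro m hm hmN
    rcases Nat.lt_or_ge (2 ^ j * A0) m with h1 | h1
    · have hA : A0 ≤ 2 ^ j * A0 := Nat.le_mul_of_pos_left _ (by positivity)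
      rw [← Finset.sum_Ico_consecutive f hA h1.le]
      have h2 := ih (2 ^ j * A0) le_rfl (by omega)
      have h3 : Finset.Ico (2 ^ j * A0) m = Finset.Icc (2 ^ j * A0) (m - 1) := by
        ext x
        simp only [Finset.mem_Ico, Finset.mem_Icc]
        omega
      have h5 : 2 ^ (j + 1) * A0 = 2 * (2 ^ j * A0) := by ring
      have h4 := h (2 ^ j * A0) (m - 1) hA (by omega) (by omega) (by omega)
      rw [h3]
      refine (norm_add_le _ _).trans ?_
      push_cast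
      linarith
    · refine (ih m h1 hmN).trans ?_
      push_cast
      linarith

private lemma zn_log2 : (69 / 100 : ℝ) ≤ Real.log 2 := by
  have := Real.log_two_gt_d9
  linarith

theorem zeta_near {η : ℝ} (hη : 0 < η) : ∃ δ C : ℝ, 0 < δ ∧ δ ≤ 1 / 4 ∧ 1 ≤ C ∧ ∀ s : ℂ,
    1 - δ ≤ s.re → 2 ≤ |s.im| →
    ‖riemannZeta s‖ ≤ C * |s.im| ^ (η * max (1 - s.re) 0) * Real.log |s.im| := by
  obtain ⟨k, hk⟩ : ∃ k : ℕ, k = ⌈1 / η⌉₊ := ⟨_, rfl⟩
  have hk1 : 1 ≤ k := by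
    rw [hk]
    exact Nat.ceil_pos.2 (by positivity)
  have hkη : 1 / (k : ℝ) ≤ η := by
    have h1 : 1 / η ≤ k := by
      rw [hk]
      exact Nat.le_ceil _
    rw [div_le_iff₀ (by exact_mod_cast hk1)]
    rw [div_le_iff₀ hη] at h1
    linarith
  have hk0 : (0 : ℝ) < k := by exact_mod_cast hk1
  have hk1' : (1 : ℝ) ≤ k := by exact_mod_cast hk1
  obtain ⟨δk, Ck, hδk, hδk2, hCk, hz⟩ := Pool.Agent.H52.Unc.zsumK k hk1
  refine ⟨min δk (1 / 4), 16 + 18 * Ck, by positivity, min_le_right _ _, by linarith, ?_⟩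
  intro s hs ht
  obtain ⟨t, htdef⟩ : ∃ t : ℝ, t = |s.im| := ⟨_, rfl⟩
  rw [← htdef] at ht ⊢
  have hδ4 : min δk (1 / 4) ≤ 1 / 4 := min_le_right _ _
  have hδk' : min δk (1 / 4) ≤ δk := min_le_left _ _
  have hσ : 3 / 4 ≤ s.re := by linarith
  have hσ0 : 0 < s.re := by linarith
  have ht0 : 0 < t := by linarith
  have ht1 : 1 ≤ t := by linarith
  have hlog2 := zn_log2
  have hlt : Real.log 2 ≤ Real.log t := Real.log_le_log (by norm_num) ht
  have hlt' : 69 / 100 ≤ Real.log t := hlog2.trans hlt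
  have hs1 : s ≠ 1 := by
    intro h
    rw [h, one_im, abs_zero] at htdef
    linarith
  have hts : t ≤ ‖s - 1‖ := by
    have := abs_im_le_norm (s - 1)
    rwa [sub_im, one_im, sub_zero, ← htdef] at this
  -- the cut off
  obtain ⟨N, hN⟩ : ∃ N : ℕ, N = ⌈t ^ 2⌉₊ := ⟨_, rfl⟩
  have hN1 : t ^ 2 ≤ N := by
    rw [hN]
    exact Nat.le_ceil _
  have hN2 : (N : ℝ) ≤ 2 * t ^ 2 := by
    rw [hN]
    have := (Nat.ceil_lt_add_one (by positivity : 0 ≤ t ^ 2)).le
    nlinarith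
  have hN0 : (0 : ℝ) < N := by
    have : 0 < t ^ 2 := by positivity
    linarith
  have hN1' : 1 ≤ N := by
    have : 0 < N := by exact_mod_cast hN0
    omega
  have hNr : (1 : ℝ) ≤ N := by exact_mod_cast hN1'
  have hsqrtN : (N : ℝ) ^ (1 / 2 : ℝ) ≤ 2 * t := by
    rw [← Real.sqrt_eq_rpow, Real.sqrt_le_left (by positivity)]
    nlinarith
  have hlogN : Real.log N ≤ 3 * Real.log t := by
    have h1 : Real.log N ≤ Real.log (2 * t ^ 2) := Real.log_le_log hN0 hN2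
    rw [Real.log_mul (by norm_num) (by positivity), Real.log_pow] at h1
    push_cast at h1
    linarith
  have hlogN0 : 0 ≤ Real.log N := Real.log_natCast_nonneg N
  -- the two error terms
  have hE1 : (N : ℝ) ^ (1 - s.re) / ‖s - 1‖ ≤ 2 := by
    rw [div_le_iff₀ (by linarith)]
    calc (N : ℝ) ^ (1 - s.re) ≤ (N : ℝ) ^ (1 / 2 : ℝ) :=
          Real.rpow_le_rpow_of_exponent_le hNr (by linarith)
      _ ≤ 2 * t := hsqrtN
      _ ≤ 2 * ‖s - 1‖ := by linarith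
  have hE2 : (‖s‖ / s.re) * (N : ℝ) ^ (-s.re) ≤ 3 := by
    have h1 : ‖s‖ / s.re ≤ 3 * t := by
      rw [div_le_iff₀ hσ0]
      have := norm_le_abs_re_add_abs_im s
      rw [abs_of_nonneg hσ0.le, ← htdef] at this
      nlinarith
    have h2 : (N : ℝ) ^ (-s.re) ≤ t⁻¹ := by
      calc (N : ℝ) ^ (-s.re) ≤ (N : ℝ) ^ (-(1 / 2) : ℝ) :=
            Real.rpow_le_rpow_of_exponent_le hNr (by linarith)
        _ ≤ (t ^ 2) ^ (-(1 / 2) : ℝ) :=
            Real.rpow_le_rpow_of_nonpos (by positivity) hN1 (by norm_num)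
        _ = t⁻¹ := by
            rw [← Real.rpow_natCast t 2, ← Real.rpow_mul ht0.le, ← Real.rpow_neg_one]
            norm_num
    calc (‖s‖ / s.re) * (N : ℝ) ^ (-s.re) ≤ 3 * t * t⁻¹ := by gcongr
      _ = 3 := by field_simp
  have hap := zn_approx hσ0 hs1 hN1'
  rcases le_or_gt 1 s.re with h1σ | h1σ
  · have h1 := zn_right h1σ N hN1'
    have h2 : max (1 - s.re) 0 = 0 := max_eq_right (by linarith)
    rw [h2, mul_zero, Real.rpow_zero, mul_one]
    nlinarith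
  · have h2 : max (1 - s.re) 0 = 1 - s.re := max_eq_left (by linarith)
    rw [h2]
    -- the head
    obtain ⟨A0, hA0⟩ : ∃ A0 : ℕ, A0 = ⌈t ^ (1 / (k : ℝ))⌉₊ := ⟨_, rfl⟩
    have htk1 : 1 ≤ t ^ (1 / (k : ℝ)) := Real.one_le_rpow ht1 (by positivity)
    have htkt : t ^ (1 / (k : ℝ)) ≤ t := by
      calc t ^ (1 / (k : ℝ)) ≤ t ^ (1 : ℝ) := by
            apply Real.rpow_le_rpow_of_exponent_le ht1
            rw [div_le_iff₀ hk0]
            linarith
        _ = t := Real.rpow_one t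
    have hA0l : t ^ (1 / (k : ℝ)) ≤ A0 := by
      rw [hA0]
      exact Nat.le_ceil _
    have hA0u : (A0 : ℝ) ≤ 2 * t ^ (1 / (k : ℝ)) := by
      rw [hA0]
      have := (Nat.ceil_lt_add_one (by positivity : 0 ≤ t ^ (1 / (k : ℝ)))).le
      linarith
    have hA0p : (0 : ℝ) < A0 := by linarith
    have hA01 : 1 ≤ A0 := by
      have : 0 < A0 := by exact_mod_cast hA0p
      omega
    have hA0N : A0 ≤ N := by
      rw [hA0, hN]
      apply Nat.ceil_mono
      nlinarith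
    have hhead := zn_head h1σ.le A0 hA01
    have hP1 : 1 ≤ t ^ (η * (1 - s.re)) := Real.one_le_rpow ht1 (by
      have : 0 < 1 - s.re := by linarith
      positivity)
    have hA0pow : (A0 : ℝ) ^ (1 - s.re) ≤ 2 * t ^ (η * (1 - s.re)) := by
      calc (A0 : ℝ) ^ (1 - s.re) ≤ (2 * t ^ (1 / (k : ℝ))) ^ (1 - s.re) :=
            Real.rpow_le_rpow hA0p.le hA0u (by linarith)
        _ = 2 ^ (1 - s.re) * (t ^ (1 / (k : ℝ))) ^ (1 - s.re) :=
            Real.mul_rpow (by norm_num) (by positivity)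
        _ ≤ 2 * t ^ (η * (1 - s.re)) := by
            apply mul_le_mul _ _ (by positivity) (by norm_num)
            · calc (2 : ℝ) ^ (1 - s.re) ≤ 2 ^ (1 : ℝ) :=
                    Real.rpow_le_rpow_of_exponent_le (by norm_num) (by linarith)
                _ = 2 := Real.rpow_one 2
            · rw [← Real.rpow_mul ht0.le]
              apply Real.rpow_le_rpow_of_exponent_le ht1
              exact mul_le_mul_of_nonneg_right hkη (by linarith)
    have hlogA0 : Real.log A0 ≤ 2 * Real.log t := by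
      have h3 : Real.log A0 ≤ Real.log (2 * t) := Real.log_le_log hA0p (by linarith)
      rw [Real.log_mul (by norm_num) (by positivity)] at h3
      linarith
    have hH : ‖∑ i ∈ Finset.Ico 1 A0, (i : ℂ) ^ (-s)‖ ≤
        8 * (t ^ (η * (1 - s.re)) * Real.log t) := by
      refine hhead.trans ?_
      calc (A0 : ℝ) ^ (1 - s.re) * (1 + Real.log A0) ≤
            (2 * t ^ (η * (1 - s.re))) * (4 * Real.log t) := by
            apply mul_le_mul hA0pow (by linarith) _ (by positivity)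
            have := Real.log_natCast_nonneg A0
            linarith
        _ = 8 * (t ^ (η * (1 - s.re)) * Real.log t) := by ring
    -- the blocks
    have hblock : ∀ A B : ℕ, A0 ≤ A → A ≤ B → B ≤ 2 * A → A ≤ N →
        ‖∑ n ∈ Finset.Icc A B, (n : ℂ) ^ (-s)‖ ≤ 3 * Ck := by
      intro A B hA hAB hB hAN
      have hA1 : 1 ≤ A := by omega
      have hAp : (0 : ℝ) < A := by exact_mod_cast hA1
      have hA1r : (1 : ℝ) ≤ A := by exact_mod_cast hA1
      have hAk : t ≤ (A : ℝ) ^ k := by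
        have h3 : t ^ (1 / (k : ℝ)) ≤ A := hA0l.trans (by exact_mod_cast hA)
        calc t = (t ^ (1 / (k : ℝ))) ^ k := by
              rw [← Real.rpow_natCast, ← Real.rpow_mul ht0.le]
              rw [one_div, inv_mul_cancel₀ hk0.ne', Real.rpow_one]
          _ ≤ (A : ℝ) ^ k := by gcongr
      have h4 := zn_block (s := s) hσ0.le (M := Ck * ((A : ℝ) ^ (1 - δk) + A / t)) hA1 hAB (by
        intro m hm1 hm2
        rw [htdef]
        exact hz s.im A m hA1 hm1 (by omega) (by rw [← htdef]; exact ht1)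
          (by rw [← htdef]; exact hAk))
      refine h4.trans ?_
      have h5 : (A : ℝ) ^ (-s.re) * (A : ℝ) ^ (1 - δk) ≤ 1 := by
        rw [← Real.rpow_add hAp]
        exact Real.rpow_le_one_of_one_le_of_nonpos hA1r (by linarith)
      have h6 : (A : ℝ) ^ (-s.re) * (A / t) ≤ 2 := by
        have h7 : (A : ℝ) ^ (-s.re) * (A / t) = (A : ℝ) ^ (1 - s.re) / t := by
          have h8 : (A : ℝ) ^ (1 - s.re) = (A : ℝ) ^ (-s.re) * A := by
            nth_rewrite 3 [← Real.rpow_one (A : ℝ)]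
            rw [← Real.rpow_add hAp]
            congr 1
            ring
          rw [h8]
          ring
        rw [h7, div_le_iff₀ ht0]
        calc (A : ℝ) ^ (1 - s.re) ≤ (A : ℝ) ^ (1 / 2 : ℝ) :=
              Real.rpow_le_rpow_of_exponent_le hA1r (by linarith)
          _ ≤ (N : ℝ) ^ (1 / 2 : ℝ) := by
              apply Real.rpow_le_rpow hAp.le _ (by norm_num)
              exact_mod_cast hAN
          _ ≤ 2 * t := hsqrtN
      calc (A : ℝ) ^ (-s.re) * (Ck * ((A : ℝ) ^ (1 - δk) + A / t)) =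
            Ck * ((A : ℝ) ^ (-s.re) * (A : ℝ) ^ (1 - δk) + (A : ℝ) ^ (-s.re) * (A / t)) := by ring
        _ ≤ Ck * (1 + 2) := by gcongr
        _ = 3 * Ck := by ring
    have hj : N ≤ 2 ^ (Nat.clog 2 N) * A0 := by
      have h3 := Nat.le_pow_clog (by norm_num : 1 < 2) N
      nlinarith
    have htail := zn_dyadic (fun n => (n : ℂ) ^ (-s)) (by positivity : 0 ≤ 3 * Ck) hblock
      (Nat.clog 2 N) N hj le_rfl
    have hclog : ((Nat.clog 2 N : ℕ) : ℝ) ≤ 6 * Real.log t := by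
      have hN2' : 2 ≤ N := by
        have : (2 : ℝ) ≤ N := by nlinarith
        exact_mod_cast this
      have h3 : 2 ^ (Nat.clog 2 N).pred < N := Nat.pow_pred_clog_lt_self (by norm_num) (by omega)
      have h4 : (2 : ℝ) ^ (Nat.clog 2 N).pred ≤ N := by exact_mod_cast h3.le
      have h5 : Real.log ((2 : ℝ) ^ (Nat.clog 2 N).pred) ≤ Real.log N :=
        Real.log_le_log (by positivity) h4
      rw [Real.log_pow] at h5
      have h6 : ((Nat.clog 2 N : ℕ) : ℝ) ≤ (((Nat.clog 2 N).pred : ℕ) : ℝ) + 1 := by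
        have : Nat.clog 2 N ≤ (Nat.clog 2 N).pred + 1 := by
          rw [Nat.pred_eq_sub_one]
          omega
        exact_mod_cast this
      have h7 : (0 : ℝ) ≤ (((Nat.clog 2 N).pred : ℕ) : ℝ) := by positivity
      nlinarith
    have hsplit : ‖∑ i ∈ Finset.Ico 1 N, (i : ℂ) ^ (-s)‖ ≤
        8 * (t ^ (η * (1 - s.re)) * Real.log t) + 6 * Real.log t * (3 * Ck) := by
      rw [← Finset.sum_Ico_consecutive (fun i : ℕ => (i : ℂ) ^ (-s)) hA01 hA0N]
      refine (norm_add_le _ _).trans (add_le_add hH (htail.trans ?_))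
      gcongr
    have h9 : Real.log t ≤ t ^ (η * (1 - s.re)) * Real.log t := by nlinarith
    have h10 : (16 + 18 * Ck) * t ^ (η * (1 - s.re)) * Real.log t =
        16 * (t ^ (η * (1 - s.re)) * Real.log t) +
          18 * Ck * (t ^ (η * (1 - s.re)) * Real.log t) := by ring
    rw [h10]
    have h11 : 18 * Ck * Real.log t ≤ 18 * Ck * (t ^ (η * (1 - s.re)) * Real.log t) := by
      gcongr
    nlinarith

theorem zeta_wide : ∃ A C : ℝ, 0 < A ∧ 1 ≤ C ∧ ∀ s : ℂ, 1 / 2 ≤ s.re → 2 ≤ |s.im| →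
    ‖riemannZeta s‖ ≤ C * |s.im| ^ (A * max (1 - s.re) 0) * Real.log |s.im| := by
  obtain ⟨δ, C, hδ, hδ4, hC, h⟩ := zeta_near (η := 1) one_pos
  refine ⟨1 / δ, C + 6, by positivity, by linarith, ?_⟩
  intro s hs ht
  obtain ⟨t, htdef⟩ : ∃ t : ℝ, t = |s.im| := ⟨_, rfl⟩
  have h0 := h s
  rw [← htdef] at h0 ht ⊢
  have ht0 : 0 < t := by linarith
  have ht1 : 1 ≤ t := by linarith
  have hlog2 := zn_log2
  have hlt : Real.log 2 ≤ Real.log t := Real.log_le_log (by norm_num) ht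
  have hlt' : 69 / 100 ≤ Real.log t := hlog2.trans hlt
  have hδ1 : 1 ≤ 1 / δ := by
    rw [le_div_iff₀ hδ]
    linarith
  rcases le_or_gt (1 - δ) s.re with h1 | h1
  · have h2 := h0 h1 ht
    refine h2.trans ?_
    have h3 : t ^ (1 * max (1 - s.re) 0) ≤ t ^ (1 / δ * max (1 - s.re) 0) := by
      apply Real.rpow_le_rpow_of_exponent_le ht1
      exact mul_le_mul_of_nonneg_right hδ1 (le_max_right _ _)
    gcongr
    linarith
  · have hσ0 : 0 < s.re := by linarith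
    have hs1 : s ≠ 1 := by
      intro h
      rw [h, one_im, abs_zero] at htdef
      linarith
    have hts : t ≤ ‖s - 1‖ := by
      have := abs_im_le_norm (s - 1)
      rwa [sub_im, one_im, sub_zero, ← htdef] at this
    have h2 := zn_approx hσ0 hs1 (le_refl 1)
    simp only [Finset.Ico_self, Finset.sum_empty, norm_zero, Nat.cast_one, Real.one_rpow,
      mul_one, zero_add] at h2
    have h3 : ‖s‖ / s.re ≤ 3 * t := by
      rw [div_le_iff₀ hσ0]
      have := norm_le_abs_re_add_abs_im s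
      rw [abs_of_nonneg hσ0.le, ← htdef] at this
      nlinarith
    have h4 : 1 / ‖s - 1‖ ≤ 1 := by
      rw [div_le_iff₀ (by linarith)]
      linarith
    have h5 : ‖riemannZeta s‖ ≤ 4 * t := by linarith
    have h6 : max (1 - s.re) 0 = 1 - s.re := max_eq_left (by linarith)
    rw [h6]
    have h7 : t ≤ t ^ (1 / δ * (1 - s.re)) := by
      calc t = t ^ (1 : ℝ) := (Real.rpow_one t).symm
        _ ≤ t ^ (1 / δ * (1 - s.re)) := by
            apply Real.rpow_le_rpow_of_exponent_le ht1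
            rw [div_mul_eq_mul_div, one_mul, le_div_iff₀ hδ]
            linarith
    calc ‖riemannZeta s‖ ≤ 4 * t := h5
      _ ≤ 4 * t ^ (1 / δ * (1 - s.re)) := by linarith
      _ ≤ (C + 6) * t ^ (1 / δ * (1 - s.re)) * Real.log t := by
          have h8 : 0 < t ^ (1 / δ * (1 - s.re)) := by positivity
          have h9 : 4 ≤ (C + 6) * Real.log t := by nlinarith
          nlinarith

end Pool.Agent.H76.PS
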