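import Mathlib
import Pool.Agent.H76.SV.Main
import Pool.Agent.H76.PS.Uncr
import Pool.Agent.H76.PS.ZNear1

/-!
# Vis: zeros are visible to the primes at small scales
-/

set_option autoImplicit false

open Complex

namespace Pool.Agent.H76.PS

open Pool.Agent.H76.CR Pool.Agent.H52.Unc

theorem log_dom (D A κ : ℝ) (hκ : 0 < κ) :
    ∃ Y0 : ℝ, 1 ≤ Y0 ∧ ∀ Y : ℝ, Y0 ≤ Y → D * (A + Real.log Y) ≤ κ * Y := by
  have h1 := Real.isLittleO_log_id_atTop.bound (c := κ / (2 * (|D| + 1))) (by positivity)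
  obtain ⟨Y1, hY1⟩ := Filter.eventually_atTop.1 h1
  refine ⟨max (max Y1 1) (2 * |D * A| / κ), le_max_of_le_left (le_max_right _ _), ?_⟩
  intro Y hY
  have a1 : Y1 ≤ Y := ((le_max_left _ _).trans (le_max_left _ _)).trans hY
  have a2 : 1 ≤ Y := ((le_max_right _ _).trans (le_max_left _ _)).trans hY
  have a3 : 2 * |D * A| / κ ≤ Y := (le_max_right _ _).trans hY
  have h2 := hY1 Y a1
  have hlog : 0 ≤ Real.log Y := Real.log_nonneg a2
  simp only [id] at h2
  rw [Real.norm_of_nonneg hlog, Real.norm_of_nonneg (by linarith : (0 : ℝ) ≤ Y)] at h2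
  rw [div_le_iff₀ hκ] at a3
  have h3 : D * A ≤ |D * A| := le_abs_self _
  have h4 : D * Real.log Y ≤ κ * Y / 2 := by
    calc D * Real.log Y ≤ (|D| + 1) * Real.log Y := by
          apply mul_le_mul_of_nonneg_right _ hlog
          linarith [le_abs_self D]
      _ ≤ (|D| + 1) * (κ / (2 * (|D| + 1)) * Y) := by
          apply mul_le_mul_of_nonneg_left h2
          positivity
      _ = κ * Y / 2 := by
          have : |D| + 1 ≠ 0 := by positivity
          field_simp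
  linarith

/-- the size of `log (γ + N)` -/
theorem logsum {γ N x : ℝ} (hx : 0 < x) (hγ : 2 ≤ γ) (hN : γ ^ x ≤ N)
    (hlN : 1 ≤ Real.log N) : Real.log (γ + N) ≤ (2 + 1 / x) * Real.log N := by
  have hγ0 : 0 < γ := by linarith
  have hN0 : 0 < N := (Real.rpow_pos_of_pos hγ0 x).trans_le hN
  have h1 : x * Real.log γ ≤ Real.log N := by
    rw [← Real.log_rpow hγ0]
    exact Real.log_le_log (Real.rpow_pos_of_pos hγ0 x) hN
  have h2 : Real.log γ ≤ 1 / x * Real.log N := by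
    rw [one_div, inv_mul_eq_div, le_div_iff₀ hx]
    linarith
  have hN1 : 1 ≤ N := by
    by_contra hcon
    push Not at hcon
    have := Real.log_neg hN0 hcon
    linarith
  have h3 : Real.log (γ + N) ≤ Real.log γ + Real.log (2 * N) := by
    rw [← Real.log_mul (by positivity) (by positivity)]
    apply Real.log_le_log (by linarith)
    nlinarith
  have h4 : Real.log (2 * N) ≤ 2 * Real.log N := by
    rw [Real.log_mul (by norm_num) hN0.ne']
    have : Real.log 2 ≤ 1 := by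
      have := Real.log_two_lt_d9
      linarith
    linarith
  calc Real.log (γ + N) ≤ 1 / x * Real.log N + 2 * Real.log N := by linarith
    _ = _ := by ring

theorem vis_gen {ε : ℝ} (hε : 0 < ε) (hε1 : ε ≤ 1 / 4) :
    ∃ c' : ℝ, 0 < c' ∧ ∀ η r0 B m x : ℝ, 0 < η → 1 ≤ B → 0 < m → 0 < x → 8 * η / c' ≤ x →
      (∀ s : ℂ, r0 ≤ s.re → 2 ≤ |s.im| →
        ‖riemannZeta s‖ ≤ B * |s.im| ^ (η * max (1 - s.re) 0) * Real.log |s.im|) →
      ∃ C : ℝ, 1 ≤ C ∧ ∀ (ρ : ℂ) (N : ℝ), riemannZeta ρ = 0 → 1 / 2 + ε ≤ ρ.re →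
        r0 ≤ ρ.re - 2 * ε * (1 - ρ.re) → r0 + m ≤ ρ.re → C ≤ ρ.im → ρ.im ^ x ≤ N →
        ∃ M : ℕ, N ^ (1 - ε) ≤ M ∧ (M : ℝ) ≤ N ∧
          (M : ℝ) ^ (ρ.re - ε * (1 - ρ.re)) ≤ Real.log (ρ.im + N) ^ C * ‖pSum M ρ.im‖ := by
  obtain ⟨K, c, C0, hK, hc, hC0, -, hmain⟩ := SV.main ε hε hε1
  obtain ⟨c', hc', huncr⟩ := uncr hK hε hε1 hc
  refine ⟨c', hc', ?_⟩
  intro η r0 B m x hη hB hm hx hηx hζ
  obtain ⟨C1, hC1, hu⟩ := huncr η r0 B hη hB hζ
  set D : ℝ := C0 + C1 with hD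
  have hD0 : 0 < D := by linarith
  have hκ : 0 < min (1 / 4) m := lt_min (by norm_num) hm
  obtain ⟨Y0, hY0, hY⟩ := log_dom D (Real.log (2 + 1 / x)) (min (1 / 4) m) hκ
  have hE := Real.exp_pos (Y0 / x)
  have hE3 := Real.exp_pos 3
  refine ⟨D + Real.exp (Y0 / x) + Real.exp 3, by linarith, ?_⟩
  intro ρ N hρ hre hr1 hr2 him hN
  set γ : ℝ := ρ.im with hγ
  have hγD : D ≤ γ := by linarith
  have hγ3 : Real.exp 3 ≤ γ := by linarith
  have hγ2 : 2 ≤ γ := by
    have : (3 : ℝ) + 1 ≤ Real.exp 3 := Real.add_one_le_exp 3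
    linarith
  have hγ0 : 0 < γ := by linarith
  have hlγ : 3 ≤ Real.log γ := by
    rw [Real.le_log_iff_exp_le hγ0]; exact hγ3
  have hlγY : Y0 ≤ x * Real.log γ := by
    have h1 : Y0 / x ≤ Real.log γ := by
      rw [Real.le_log_iff_exp_le hγ0]; linarith
    rw [div_le_iff₀ hx] at h1
    linarith
  have hN0 : 0 < N := (Real.rpow_pos_of_pos hγ0 x).trans_le hN
  have hlNγ : x * Real.log γ ≤ Real.log N := by
    rw [← Real.log_rpow hγ0]
    exact Real.log_le_log (Real.rpow_pos_of_pos hγ0 x) hN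
  have hlNY : Y0 ≤ Real.log N := hlγY.trans hlNγ
  have hlN1 : 1 ≤ Real.log N := hY0.trans hlNY
  have hlN0 : 0 < Real.log N := by linarith
  have hN1 : 1 ≤ N := by
    by_contra hcon
    push Not at hcon
    have := Real.log_neg hN0 hcon
    linarith
  set W : ℝ := Real.log (γ + N) with hW
  have hWγ : Real.log γ ≤ W := Real.log_le_log hγ0 (by linarith)
  have hW3 : 3 ≤ W := hlγ.trans hWγ
  have hW0 : 0 < W := by linarith
  set l : ℝ := Real.log W with hl
  have hl1 : 1 ≤ l := by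
    rw [hl, Real.le_log_iff_exp_le hW0]
    have := Real.exp_one_lt_d9
    linarith
  have hx2 : 0 < 2 + 1 / x := by positivity
  have hlle : l ≤ Real.log (2 + 1 / x) + Real.log (Real.log N) := by
    rw [← Real.log_mul hx2.ne' hlN0.ne']
    exact Real.log_le_log hW0 (logsum hx hγ2 hN hlN1)
  have hDl : D * l ≤ min (1 / 4) m * Real.log N :=
    (mul_le_mul_of_nonneg_left hlle hD0.le).trans (hY _ hlNY)
  set d0 : ℝ := D * l / Real.log N with hd0
  have hd0pos : 0 < d0 := by positivity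
  have hd0le : d0 ≤ min (1 / 4) m := by
    rw [hd0, div_le_iff₀ hlN0]; exact hDl
  have hd04 : d0 ≤ 1 / 4 := hd0le.trans (min_le_left _ _)
  have hd0m : d0 ≤ m := hd0le.trans (min_le_right _ _)
  have hd0N : d0 * Real.log N = D * l := by
    rw [hd0]; field_simp
  have hre1 : ρ.re < 1 := re_lt_one hρ
  set d : ℝ := max (1 - ρ.re) d0 with hd
  have hdd0 : d0 ≤ d := le_max_right _ _
  have hdβ : 1 - ρ.re ≤ d := le_max_left _ _
  have hdpos : 0 < d := hd0pos.trans_le hdd0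
  have hd2 : d ≤ 1 / 2 - ε := max_le (by linarith) (by linarith)
  have hrd : r0 ≤ ρ.re - 2 * ε * d := by
    have h1 : 2 * ε * d = max (2 * ε * (1 - ρ.re)) (2 * ε * d0) := by
      rw [hd, mul_max_of_nonneg _ _ (by positivity)]
    have h2 : 2 * ε * d0 ≤ m := by
      have : 2 * ε * d0 ≤ 1 * d0 := mul_le_mul_of_nonneg_right (by linarith) hd0pos.le
      linarith
    have h3 : 2 * ε * d ≤ ρ.re - r0 := by
      rw [h1]
      exact max_le (by linarith) (by linarith)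
    linarith
  have hDld : D * l ≤ d * Real.log N := by
    rw [← hd0N]
    exact mul_le_mul_of_nonneg_right hdd0 hlN0.le
  have hWN : W ^ C0 ≤ N ^ (1 - (1 - d)) := by
    have h1 : 1 - (1 - d) = d := by ring
    rw [h1, Real.rpow_def_of_pos hW0, Real.rpow_def_of_pos hN0]
    apply Real.exp_le_exp.2
    have h2 : C0 * l ≤ D * l := mul_le_mul_of_nonneg_right (by linarith) (by linarith)
    calc Real.log W * C0 = C0 * l := by rw [hl]; ring
      _ ≤ d * Real.log N := h2.trans hDld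
      _ = Real.log N * d := by ring
  have huu := hu ρ d N hρ hdpos (by linarith) (by linarith) hrd (by linarith) hN1
    (by
      have : 8 * η / c' * Real.log γ ≤ x * Real.log γ :=
        mul_le_mul_of_nonneg_right hηx (by linarith)
      linarith)
    (by
      have h2 : C1 * l ≤ D * l := mul_le_mul_of_nonneg_right (by linarith) (by linarith)
      exact h2.trans hDld)
  have h1d : 1 - (1 - d) = d := by ring
  rcases hmain (1 - d) N ρ (by linarith) (by linarith) hN1 hρ (by linarith) (by linarith) hWN with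
    hcr | ⟨M, hM1, hM2, hM3⟩
  · exfalso
    rw [h1d] at hcr
    linarith
  · rw [h1d] at hM3
    refine ⟨M, hM1, hM2, ?_⟩
    have hM0 : 0 < (M : ℝ) := (Real.rpow_pos_of_pos hN0 _).trans_le hM1
    have hM1' : 1 ≤ (M : ℝ) := by
      have : 0 < M := by exact_mod_cast hM0
      exact_mod_cast this
    have e1 : ρ.re - ε * (1 - ρ.re) = (ρ.re - ε * d) + ε * (d - (1 - ρ.re)) := by ring
    have hdiff : d - (1 - ρ.re) ≤ d0 := by
      have : d ≤ d0 + (1 - ρ.re) := max_le (by linarith) (by linarith)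
      linarith
    have hdiff0 : 0 ≤ d - (1 - ρ.re) := by linarith
    have e2 : (M : ℝ) ^ (ε * (d - (1 - ρ.re))) ≤ W ^ (D + Real.exp (Y0 / x) + Real.exp 3) := by
      calc (M : ℝ) ^ (ε * (d - (1 - ρ.re))) ≤ N ^ (ε * (d - (1 - ρ.re))) :=
            Real.rpow_le_rpow hM0.le hM2 (by positivity)
        _ ≤ N ^ d0 := by
            apply Real.rpow_le_rpow_of_exponent_le hN1
            calc ε * (d - (1 - ρ.re)) ≤ 1 * d0 :=
                  mul_le_mul (by linarith) hdiff hdiff0 zero_le_one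
              _ = d0 := one_mul _
        _ = W ^ D := by
            rw [Real.rpow_def_of_pos hW0, Real.rpow_def_of_pos hN0, mul_comm, hd0N, mul_comm]
        _ ≤ _ := Real.rpow_le_rpow_of_exponent_le (by linarith) (by linarith)
    rw [e1, Real.rpow_add hM0]
    calc (M : ℝ) ^ (ρ.re - ε * d) * (M : ℝ) ^ (ε * (d - (1 - ρ.re)))
        ≤ ‖pSum M γ‖ * W ^ (D + Real.exp (Y0 / x) + Real.exp 3) :=
          mul_le_mul hM3 e2 (Real.rpow_nonneg hM0.le _) (norm_nonneg _)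
      _ = _ := mul_comm _ _

/-- visibility near the line `Re = 1`, at the scale `γ^x`, `x` arbitrarily small -/
theorem vis_near {ε x : ℝ} (hε : 0 < ε) (hε1 : ε ≤ 1 / 4) (hx : 0 < x) :
    ∃ σx C : ℝ, σx < 1 ∧ 1 ≤ C ∧ ∀ (ρ : ℂ) (N : ℝ), riemannZeta ρ = 0 → σx ≤ ρ.re →
      C ≤ ρ.im → ρ.im ^ x ≤ N →
      ∃ M : ℕ, N ^ (1 - ε) ≤ M ∧ (M : ℝ) ≤ N ∧
        (M : ℝ) ^ (ρ.re - ε * (1 - ρ.re)) ≤ Real.log (ρ.im + N) ^ C * ‖pSum M ρ.im‖ := by
  obtain ⟨c', hc', h⟩ := vis_gen hε hε1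
  obtain ⟨δ, B, hδ, hδ4, hB, hζ⟩ := zeta_near (η := c' * x / 8) (by positivity)
  obtain ⟨C, hC, hmain⟩ := h (c' * x / 8) (1 - δ) B (δ / 2) x (by positivity) hB (by positivity)
    hx (le_of_eq (by field_simp)) hζ
  refine ⟨1 - δ / 2, C, by linarith, hC, fun ρ N hρ hre him hN => ?_⟩
  have hre1 : ρ.re < 1 := re_lt_one hρ
  refine hmain ρ N hρ (by linarith) ?_ (by linarith) him hN
  have : ε * (1 - ρ.re) ≤ 1 / 4 * (1 - ρ.re) := mul_le_mul_of_nonneg_right hε1 (by linarith)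
  linarith

/-- visibility of all zeros off the critical line, at a fixed power of the height -/
theorem vis_wide {ε : ℝ} (hε : 0 < ε) (hε1 : ε ≤ 1 / 4) :
    ∃ x C : ℝ, 0 < x ∧ 1 ≤ C ∧ ∀ (ρ : ℂ) (N : ℝ), riemannZeta ρ = 0 → 1 / 2 + ε ≤ ρ.re →
      C ≤ ρ.im → ρ.im ^ x ≤ N →
      ∃ M : ℕ, N ^ (1 - ε) ≤ M ∧ (M : ℝ) ≤ N ∧
        (M : ℝ) ^ (ρ.re - ε * (1 - ρ.re)) ≤ Real.log (ρ.im + N) ^ C * ‖pSum M ρ.im‖ := by
  obtain ⟨c', hc', h⟩ := vis_gen hε hε1
  obtain ⟨A, B, hA, hB, hζ⟩ := zeta_wide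
  obtain ⟨C, hC, hmain⟩ := h A (1 / 2) B ε (8 * A / c') hA hB hε (by positivity) le_rfl hζ
  refine ⟨8 * A / c', C, by positivity, hC, fun ρ N hρ hre him hN => ?_⟩
  have hre1 : ρ.re < 1 := re_lt_one hρ
  refine hmain ρ N hρ hre ?_ hre him hN
  have : ε * (1 - ρ.re) ≤ ε * (1 / 2) := mul_le_mul_of_nonneg_left (by linarith) hε.le
  linarith

end Pool.Agent.H76.PS
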