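import Mathlib
import Pool.Agent.H6.Win.ZetaLoc
import Pool.Agent.H76.CR.ZFacts

/-!
# LogDU: `ζ'/ζ` in a zero-free box, uniform in `θ → 1`

As `LogD.lean` (helper53), but now `zeta_loc` (`H6/Win/ZetaLoc.lean`) with `σ1 = 1/2 + ε/16`,
`σ2 = 1/2 + ε/8` at the height `im s` (`s.re ≥ θ + ε (1-θ) ≥ 1/2 + ε/2 ≥ σ2`, since
`θ + ε(1-θ)` is increasing in `θ` for `ε ≤ 1`).  Every `u ∈ S` has `re u ≤ θ` (otherwise
`|im u - im s| ≤ 2 - σ1 ≤ 3/2` and `|im u - t| ≤ U`, `ζ u = 0`, contradiction), so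
`‖s - u‖ ≥ re s - re u ≥ ε (1-θ)` and `‖∑ zord u/(s-u)‖ ≤ C log(|im s|+2)/(ε (1-θ))`.
`ζ'/ζ = zetaPole'/zetaPole - 1/(s-1)`; `1/(1-θ) ≥ 1` absorbs the other terms.
About 100 lines.
-/

set_option autoImplicit false

open Complex Metric

namespace Pool.Agent.H76.PS

open Pool.Agent.H6 Pool.Agent.H6.Win Pool.Agent.H76

theorem logdU {ε : ℝ} (hε : 0 < ε) (hε1 : ε ≤ 1 / 2) :
    ∃ C : ℝ, 1 ≤ C ∧ ∀ θ t U : ℝ, 1 / 2 ≤ θ → θ < 1 → 4 ≤ t → 4 ≤ U → U ≤ t / 2 →
      (∀ s : ℂ, riemannZeta s = 0 → θ < s.re → U < |s.im - t|) →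
      ∀ s : ℂ, θ + ε * (1 - θ) ≤ s.re → s.re ≤ 2 → |s.im - t| ≤ U - 2 →
        riemannZeta s ≠ 0 ∧
          ‖deriv riemannZeta s / riemannZeta s‖ ≤ C * Real.log t / (1 - θ) := by
  obtain ⟨C, hC, hmain⟩ := zeta_loc (σ1 := 1 / 2 + ε / 16) (σ2 := 1 / 2 + ε / 8) (by linarith)
    (by linarith) (by linarith)
  refine ⟨2 * C + 2 * C / ε + 1, ?_, fun θ t U hθ hθ1 ht hU hUt hz s hs hs2 him => ?_⟩
  · have : 0 < 2 * C / ε := by positivity
    linarith
  have hε' : 0 < ε * (1 - θ) := mul_pos hε (by linarith)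
  have hlog : 1 ≤ Real.log t := by
    rw [Real.le_log_iff_exp_le (by linarith)]
    have := Real.exp_one_lt_d9
    linarith
  have him' := abs_le.1 him
  have hims : 4 ≤ s.im := by linarith [him'.1]
  have hne1 : s ≠ 1 := by
    intro h
    rw [h] at hims
    simp at hims
    linarith
  have hζ : riemannZeta s ≠ 0 := by
    intro h
    have := hz s h (by linarith)
    linarith
  obtain ⟨S, hS, -, hS3, hS4⟩ := hmain s.im
  have hsre : 1 / 2 + ε / 8 ≤ s.re := by nlinarith
  have hure : ∀ u ∈ S, u.re ≤ θ := by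
    intro u hu
    by_contra hcon
    rw [not_le] at hcon
    obtain ⟨hub, hu0⟩ := (hS u).1 hu
    rw [mem_closedBall, dist_eq_norm] at hub
    have h2 := (abs_im_le_norm _).trans hub
    have e2 : (u - (2 + (s.im : ℂ) * I)).im = u.im - s.im := by simp
    rw [e2] at h2
    have h2' := abs_le.1 h2
    have hu1 : u ≠ 1 := by
      intro h
      rw [h] at h2'
      simp at h2'
      linarith [h2'.1]
    have hlt := hz u ((CR.zetaPole_eq_zero_iff hu1).1 hu0) hcon
    have hle : |u.im - t| ≤ U := by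
      rw [abs_le]
      constructor <;> linarith [h2'.1, h2'.2, him'.1, him'.2]
    linarith
  have hdist : ∀ u ∈ S, ε * (1 - θ) ≤ ‖s - u‖ := by
    intro u hu
    have h1 := hure u hu
    have h2 := (le_abs_self _).trans (abs_re_le_norm (s - u))
    rw [sub_re] at h2
    linarith
  have hsb : s ∈ closedBall ((2:ℂ) + (s.im : ℂ) * I) (2 - (1 / 2 + ε / 8)) := by
    rw [mem_closedBall, dist_eq_norm]
    have e : s - (2 + (s.im : ℂ) * I) = ((s.re - 2 : ℝ) : ℂ) := by
      apply Complex.ext <;> simp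
    rw [e, norm_real, Real.norm_eq_abs, abs_le]
    constructor <;> linarith
  have hzp : zetaPole s ≠ 0 := fun h => hζ ((CR.zetaPole_eq_zero_iff hne1).1 h)
  have hb := hS4 s hsb hzp
  -- the logarithm
  have hl : Real.log (|s.im| + 2) ≤ 2 * Real.log t := by
    have h3 : |s.im| + 2 ≤ t ^ 2 := by
      rw [abs_of_nonneg (by linarith)]
      nlinarith [him'.2]
    calc Real.log (|s.im| + 2) ≤ Real.log (t ^ 2) :=
          Real.log_le_log (by positivity) h3
      _ = 2 * Real.log t := by rw [Real.log_pow]; norm_num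
  have hsum : ‖∑ u ∈ S, (zord u : ℂ) / (s - u)‖ ≤ 2 * C / ε * (Real.log t / (1 - θ)) := by
    calc ‖∑ u ∈ S, (zord u : ℂ) / (s - u)‖ ≤ ∑ u ∈ S, ‖(zord u : ℂ) / (s - u)‖ :=
          norm_sum_le _ _
      _ ≤ ∑ u ∈ S, (zord u : ℝ) / (ε * (1 - θ)) := by
          refine Finset.sum_le_sum fun u hu => ?_
          rw [norm_div, Complex.norm_natCast]
          exact div_le_div_of_nonneg_left (Nat.cast_nonneg _) hε' (hdist u hu)
      _ = (∑ u ∈ S, (zord u : ℝ)) / (ε * (1 - θ)) := (Finset.sum_div _ _ _).symm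
      _ ≤ (C * (2 * Real.log t)) / (ε * (1 - θ)) := by
          refine div_le_div_of_nonneg_right (hS3.trans ?_) hε'.le
          exact mul_le_mul_of_nonneg_left hl hC.le
      _ = 2 * C / ε * (Real.log t / (1 - θ)) := by
          have : (1 - θ) ≠ 0 := by linarith
          field_simp
  -- the derivative
  have hd : deriv zetaPole s = riemannZeta s + (s - 1) * deriv riemannZeta s := by
    have h1 : zetaPole =ᶠ[nhds s] fun z => (z - 1) * riemannZeta z := by
      filter_upwards [isOpen_compl_singleton.mem_nhds hne1] with z hz'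
      unfold zetaPole
      rw [Function.update_of_ne hz']
    rw [h1.deriv_eq]
    have h2 : HasDerivAt (fun z : ℂ => (z - 1) * riemannZeta z)
        (1 * riemannZeta s + (s - 1) * deriv riemannZeta s) s :=
      ((hasDerivAt_id s).sub_const 1).mul (differentiableAt_riemannZeta hne1).hasDerivAt
    rw [h2.deriv, one_mul]
  have hv : zetaPole s = (s - 1) * riemannZeta s := by
    unfold zetaPole
    rw [Function.update_of_ne hne1]
  have hs1 : s - 1 ≠ 0 := sub_ne_zero.2 hne1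
  have heq : deriv riemannZeta s / riemannZeta s =
      (deriv zetaPole s / zetaPole s - ∑ u ∈ S, (zord u : ℂ) / (s - u)) +
        ∑ u ∈ S, (zord u : ℂ) / (s - u) - 1 / (s - 1) := by
    rw [sub_add_cancel, hd, hv]
    field_simp
    ring
  have hinv : ‖1 / (s - 1)‖ ≤ 1 := by
    rw [norm_div, norm_one, div_le_one (norm_pos_iff.2 hs1)]
    have := abs_im_le_norm (s - 1)
    rw [sub_im, one_im, sub_zero, abs_of_nonneg (by linarith)] at this
    linarith
  refine ⟨hζ, ?_⟩
  have hL : Real.log t ≤ Real.log t / (1 - θ) := by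
    rw [le_div_iff₀ (by linarith)]
    nlinarith
  rw [heq]
  calc ‖(deriv zetaPole s / zetaPole s - ∑ u ∈ S, (zord u : ℂ) / (s - u)) +
        ∑ u ∈ S, (zord u : ℂ) / (s - u) - 1 / (s - 1)‖
      ≤ ‖deriv zetaPole s / zetaPole s - ∑ u ∈ S, (zord u : ℂ) / (s - u)‖ +
        ‖∑ u ∈ S, (zord u : ℂ) / (s - u)‖ + ‖1 / (s - 1)‖ :=
        (norm_sub_le _ _).trans (add_le_add_left (norm_add_le _ _) _)
    _ ≤ C * (2 * Real.log t) + 2 * C / ε * (Real.log t / (1 - θ)) + 1 := by
        refine add_le_add (add_le_add (hb.trans ?_) hsum) hinv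
        exact mul_le_mul_of_nonneg_left hl hC.le
    _ ≤ (2 * C + 2 * C / ε + 1) * Real.log t / (1 - θ) := by
        have h5 : C * (2 * Real.log t) ≤ 2 * C * (Real.log t / (1 - θ)) := by nlinarith
        have h6 : (1:ℝ) ≤ Real.log t / (1 - θ) := hlog.trans hL
        have h7 : (2 * C + 2 * C / ε + 1) * Real.log t / (1 - θ) =
            2 * C * (Real.log t / (1 - θ)) + 2 * C / ε * (Real.log t / (1 - θ)) +
              Real.log t / (1 - θ) := by ring
        rw [h7]
        linarith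

end Pool.Agent.H76.PS
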