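import Mathlib
import Pool.Agent.H76.PS.PrimeA
import Pool.Agent.H76.PS.LogDU

/-!
# PrimeU: prime sums at a height without zeros, uniform in `θ → 1`
-/

set_option autoImplicit false

open Complex

namespace Pool.Agent.H76.PS

open Pool.Agent.H52.Unc

theorem primeU {ε : ℝ} (hε : 0 < ε) (hε1 : ε ≤ 1 / 2) :
    ∃ C : ℝ, 1 ≤ C ∧ ∀ (θ t U : ℝ) (M : ℕ), 1 / 2 ≤ θ → θ < 1 → 4 ≤ U → U ≤ t / 2 → 1 ≤ M →
      (∀ s : ℂ, riemannZeta s = 0 → θ < s.re → U < |s.im - t|) →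
      ‖pSum M t‖ ≤ C / (1 - θ) * Real.log (t * M) ^ 2 *
        ((M : ℝ) ^ (θ + ε * (1 - θ)) + M / √U) := by
  obtain ⟨C1, hC1, h1⟩ := logdU hε hε1
  obtain ⟨C2, hC2, h2⟩ := primeA
  refine ⟨C2 * (C1 + 1), by nlinarith, ?_⟩
  intro θ t U M hθ hθ1 hU hUt hM hz
  have ht : 8 ≤ t := by linarith
  have hd : 0 < 1 - θ := by linarith
  have hd1 : 1 - θ ≤ 1 := by linarith
  have hM1 : (1 : ℝ) ≤ M := by exact_mod_cast hM
  have hlt : 0 ≤ Real.log t := Real.log_nonneg (by linarith)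
  have hltM : Real.log t ≤ Real.log (t * M) := by
    apply Real.log_le_log (by linarith)
    nlinarith
  have hl0 : 0 ≤ Real.log (t * M) := hlt.trans hltM
  have hA : 0 ≤ C1 * Real.log t / (1 - θ) := by positivity
  have hκ : 0 ≤ ε * (1 - θ) := by positivity
  have hκ1 : ε * (1 - θ) ≤ 1 * (1 - θ) := mul_le_mul_of_nonneg_right (by linarith) hd.le
  have h := h2 (θ + ε * (1 - θ)) t U (C1 * Real.log t / (1 - θ)) M (by linarith) (by linarith)
    (by linarith) hU hUt hM hA (h1 θ t U hθ hθ1 (by linarith) hU hUt hz)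
  refine h.trans ?_
  have hone : 1 ≤ 1 / (1 - θ) := by
    rw [le_div_iff₀ hd]; linarith
  have hsum : C1 * Real.log t / (1 - θ) + Real.log (t * M) ≤
      (C1 + 1) / (1 - θ) * Real.log (t * M) := by
    have e1 : C1 * Real.log t / (1 - θ) ≤ C1 / (1 - θ) * Real.log (t * M) := by
      rw [mul_div_right_comm]
      exact mul_le_mul_of_nonneg_left hltM (by positivity)
    have e2 : Real.log (t * M) ≤ 1 / (1 - θ) * Real.log (t * M) := by
      nlinarith
    calc _ ≤ C1 / (1 - θ) * Real.log (t * M) + 1 / (1 - θ) * Real.log (t * M) := add_le_add e1 e2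
      _ = _ := by ring
  have hM0 : 0 ≤ (M : ℝ) ^ (θ + ε * (1 - θ)) + M / √U := by positivity
  calc C2 * (C1 * Real.log t / (1 - θ) + Real.log (t * M)) * Real.log (t * M) *
        ((M : ℝ) ^ (θ + ε * (1 - θ)) + M / √U)
      ≤ C2 * ((C1 + 1) / (1 - θ) * Real.log (t * M)) * Real.log (t * M) *
        ((M : ℝ) ^ (θ + ε * (1 - θ)) + M / √U) := by gcongr
    _ = _ := by ring

end Pool.Agent.H76.PS
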