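import Mathlib
import Pool.Agent.H76.PS.Vis
import Pool.Agent.H76.PS.PrimeU
import Pool.Agent.H76.PS.Cmpct

/-!
# Crit: a zero-free half-plane and prime sums at small scales
-/

set_option autoImplicit false

open Complex

namespace Pool.Agent.H76.PS

open Pool.Agent.H76.CR Pool.Agent.H52.Unc

theorem crit_back {x δ t0 : ℝ} (hx : 0 < x) (hδ : 0 < δ) (hδ1 : δ < 1)
    (h : ∀ (t : ℝ) (M : ℕ), t0 ≤ t → t ^ ((1 - δ) * x) ≤ M → (M : ℝ) ≤ t ^ x →
      ‖pSum M t‖ ≤ (M : ℝ) ^ (1 - δ)) :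
    ∃ σ0 : ℝ, 1 / 2 < σ0 ∧ σ0 < 1 ∧ ∀ s : ℂ, σ0 ≤ s.re → riemannZeta s ≠ 0 := by
  set ε : ℝ := δ / 4 with hε
  have hε0 : 0 < ε := by positivity
  have hε4 : ε ≤ 1 / 4 := by rw [hε]; linarith
  obtain ⟨σx, C, hσx, hC, hvis⟩ := vis_near hε0 hε4 hx
  obtain ⟨Y0, hY0, hY⟩ := log_dom C (Real.log (2 * x + 1)) (x * δ / 8) (by positivity)
  -- the zeros with large ordinate
  have key : ∀ ρ : ℂ, riemannZeta ρ = 0 → max σx (1 - δ / 4) ≤ ρ.re →
      ρ.im ≤ max (max C t0) (max (Real.exp (Y0 + 1 / x)) 2) := by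
    intro ρ hρ hre
    by_contra hcon
    rw [not_le] at hcon
    set γ : ℝ := ρ.im with hγ
    have b1 : C < γ := lt_of_le_of_lt ((le_max_left _ _).trans (le_max_left _ _)) hcon
    have b2 : t0 < γ := lt_of_le_of_lt ((le_max_right _ _).trans (le_max_left _ _)) hcon
    have b3 : Real.exp (Y0 + 1 / x) < γ :=
      lt_of_le_of_lt ((le_max_left _ _).trans (le_max_right _ _)) hcon
    have b4 : 2 < γ := lt_of_le_of_lt ((le_max_right _ _).trans (le_max_right _ _)) hcon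
    have hγ0 : 0 < γ := by linarith
    have hγ1 : 1 ≤ γ := by linarith
    have hlγ : Y0 + 1 / x ≤ Real.log γ := by
      rw [Real.le_log_iff_exp_le hγ0]; exact b3.le
    have h1x : 0 < 1 / x := by positivity
    have hlγ1 : 1 ≤ Real.log γ := by linarith
    have hlN : Real.log (γ ^ x) = x * Real.log γ := Real.log_rpow hγ0 x
    have hlN1 : 1 ≤ Real.log (γ ^ x) := by
      rw [hlN]
      have h2 : 1 / x ≤ Real.log γ := by linarith
      rw [div_le_iff₀ hx] at h2
      linarith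
    obtain ⟨M, hM1, hM2, hM3⟩ := hvis ρ (γ ^ x) hρ ((le_max_left _ _).trans hre) b1.le le_rfl
    have hM0 : 0 < (M : ℝ) :=
      (Real.rpow_pos_of_pos (Real.rpow_pos_of_pos hγ0 _) _).trans_le hM1
    have hM1' : 1 ≤ (M : ℝ) := by
      have : 0 < M := by exact_mod_cast hM0
      exact_mod_cast this
    rw [← Real.rpow_mul hγ0.le] at hM1
    have hp := h γ M b2.le (le_trans (Real.rpow_le_rpow_of_exponent_le hγ1 (by
      have : ε ≤ δ := by rw [hε]; linarith
      calc (1 - δ) * x ≤ (1 - ε) * x := mul_le_mul_of_nonneg_right (by linarith) hx.le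
        _ = x * (1 - ε) := by ring)) hM1) hM2
    set W : ℝ := Real.log (γ + γ ^ x) with hW
    have hWle : W ≤ (2 * x + 1) * Real.log γ := by
      have := logsum (γ := γ) (N := γ ^ x) hx b4.le le_rfl hlN1
      rw [hlN] at this
      calc W ≤ (2 + 1 / x) * (x * Real.log γ) := this
        _ = (2 * x + 1) * Real.log γ := by field_simp
    have hW1 : 1 ≤ W := by
      refine hlγ1.trans (Real.log_le_log hγ0 ?_)
      have := Real.rpow_pos_of_pos hγ0 x
      linarith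
    have hre1 : ρ.re < 1 := re_lt_one hρ
    have hre2 : 1 - δ / 4 ≤ ρ.re := (le_max_right _ _).trans hre
    have hexp : 1 - δ / 2 ≤ ρ.re - ε * (1 - ρ.re) := by
      have : ε * (1 - ρ.re) ≤ 1 / 4 * (1 - ρ.re) :=
        mul_le_mul_of_nonneg_right hε4 (by linarith)
      linarith
    have h3 : (M : ℝ) ^ (1 - δ / 2) ≤ W ^ C * (M : ℝ) ^ (1 - δ) := by
      calc (M : ℝ) ^ (1 - δ / 2) ≤ (M : ℝ) ^ (ρ.re - ε * (1 - ρ.re)) :=
            Real.rpow_le_rpow_of_exponent_le hM1' hexp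
        _ ≤ W ^ C * ‖pSum M γ‖ := hM3
        _ ≤ W ^ C * (M : ℝ) ^ (1 - δ) := by
            apply mul_le_mul_of_nonneg_left hp
            exact Real.rpow_nonneg (by linarith) _
    have hlog := Real.log_le_log (Real.rpow_pos_of_pos hM0 _) h3
    rw [Real.log_mul (Real.rpow_pos_of_pos (by linarith) _).ne'
      (Real.rpow_pos_of_pos hM0 _).ne', Real.log_rpow hM0, Real.log_rpow (by linarith),
      Real.log_rpow hM0] at hlog
    have hlogM : x / 2 * Real.log γ ≤ Real.log M := by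
      have h4 := Real.log_le_log (Real.rpow_pos_of_pos hγ0 _) hM1
      rw [Real.log_rpow hγ0] at h4
      refine le_trans ?_ h4
      apply mul_le_mul_of_nonneg_right _ (by linarith)
      nlinarith
    have hlogW : Real.log W ≤ Real.log (2 * x + 1) + Real.log (Real.log γ) := by
      rw [← Real.log_mul (by positivity) (by linarith)]
      exact Real.log_le_log (by linarith) hWle
    have h5 := hY (Real.log γ) (by linarith)
    have h6 : C * Real.log W ≤ x * δ / 8 * Real.log γ :=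
      (mul_le_mul_of_nonneg_left hlogW (by linarith)).trans h5
    have h7 : δ / 2 * Real.log M ≤ x * δ / 8 * Real.log γ := by linarith
    have h8 : δ / 2 * (x / 2 * Real.log γ) ≤ δ / 2 * Real.log M :=
      mul_le_mul_of_nonneg_left hlogM (by positivity)
    have h9 : 0 < x * δ * Real.log γ := by positivity
    linarith
  refine cmpct (σ1 := max σx (1 - δ / 4))
    (t1 := max (max C t0) (max (Real.exp (Y0 + 1 / x)) 2)) (max_lt hσx (by linarith)) ?_
  intro s hs hre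
  rw [abs_le]
  constructor
  · have h1 := key _ (zeta_conj_zero hs) (by rwa [Complex.conj_re])
    rw [Complex.conj_im] at h1
    linarith
  · exact key s hs hre

theorem crit_fwd {σ0 x : ℝ} (h1 : 1 / 2 < σ0) (h2 : σ0 < 1)
    (h : ∀ s : ℂ, σ0 ≤ s.re → riemannZeta s ≠ 0) (hx : 0 < x) :
    ∃ δ t0 : ℝ, 0 < δ ∧ δ < 1 ∧ ∀ (t : ℝ) (M : ℕ), t0 ≤ t → t ^ ((1 - δ) * x) ≤ M →
      (M : ℝ) ≤ t ^ x → ‖pSum M t‖ ≤ (M : ℝ) ^ (1 - δ) := by
  obtain ⟨C', hC', hB'⟩ := primeU (ε := 1 / 2) (by norm_num) le_rfl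
  set C : ℝ := C' / (1 - σ0) with hCdef
  have hC : 1 ≤ C := by
    rw [hCdef, le_div_iff₀ (by linarith)]
    linarith
  set δ : ℝ := min ((1 - σ0) / 8) (min (1 / (8 * x)) (1 / 2)) with hδ
  have hδ0 : 0 < δ := lt_min (by linarith) (lt_min (by positivity) (by norm_num))
  have hδ1 : δ ≤ (1 - σ0) / 8 := min_le_left _ _
  have hδ2 : δ ≤ 1 / (8 * x) := (min_le_right _ _).trans (min_le_left _ _)
  have hδ3 : δ ≤ 1 / 2 := (min_le_right _ _).trans (min_le_right _ _)
  obtain ⟨Y0, hY0, hY⟩ := log_dom 2 (Real.log (3 * C * (1 + x) ^ 2) / 2) (3 * δ * x / 2)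
    (by positivity)
  refine ⟨δ, max (Real.exp Y0) 8, hδ0, by linarith, ?_⟩
  intro t M ht hM1 hM2
  have ht8 : 8 ≤ t := (le_max_right _ _).trans ht
  have ht0 : 0 < t := by linarith
  have ht1 : 1 ≤ t := by linarith
  have hlt : Y0 ≤ Real.log t := by
    rw [Real.le_log_iff_exp_le ht0]
    exact (le_max_left _ _).trans ht
  have hlt1 : 1 ≤ Real.log t := hY0.trans hlt
  have hM0 : 0 < (M : ℝ) := (Real.rpow_pos_of_pos ht0 _).trans_le hM1
  have hMN : 1 ≤ M := by
    have : 0 < M := by exact_mod_cast hM0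
    omega
  have hM1' : 1 ≤ (M : ℝ) := by exact_mod_cast hMN
  have hbd := hB' σ0 t (t / 2) M h1.le h2 (by linarith) le_rfl hMN (fun s hs hre =>
    absurd hs (h s hre.le))
  have hexp0 : σ0 + 1 / 2 * (1 - σ0) = σ0 + (1 - σ0) / 2 := by ring
  rw [hexp0, ← hCdef] at hbd
  refine hbd.trans ?_
  -- the logarithm
  have hlM : Real.log M ≤ x * Real.log t := by
    have := Real.log_le_log hM0 hM2
    rwa [Real.log_rpow ht0] at this
  have hlM0 : 0 ≤ Real.log M := Real.log_nonneg hM1'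
  have hltM : Real.log (t * M) ≤ (1 + x) * Real.log t := by
    rw [Real.log_mul ht0.ne' hM0.ne']
    linarith
  have hltM0 : 0 ≤ Real.log (t * M) := by
    rw [Real.log_mul ht0.ne' hM0.ne']
    linarith
  -- the two terms
  have hA1 : (M : ℝ) ^ (σ0 + (1 - σ0) / 2) ≤ (M : ℝ) ^ (1 - 4 * δ) :=
    Real.rpow_le_rpow_of_exponent_le hM1' (by linarith)
  have hsqrt : (M : ℝ) ^ (4 * δ) ≤ √t := by
    calc (M : ℝ) ^ (4 * δ) ≤ (t ^ x) ^ (4 * δ) := Real.rpow_le_rpow hM0.le hM2 (by positivity)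
      _ = t ^ (x * (4 * δ)) := (Real.rpow_mul ht0.le _ _).symm
      _ ≤ t ^ (1 / 2 : ℝ) := by
          apply Real.rpow_le_rpow_of_exponent_le ht1
          rw [le_div_iff₀ (by positivity)] at hδ2
          linarith
      _ = √t := (Real.sqrt_eq_rpow t).symm
  have hsq2 : √t ≤ 2 * √(t / 2) := by
    have h3 : t = 2 * (t / 2) := by ring
    have h4 : √t = √2 * √(t / 2) := by
      rw [← Real.sqrt_mul (by norm_num)]
      congr 1
    rw [h4]
    apply mul_le_mul_of_nonneg_right _ (Real.sqrt_nonneg _)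
    rw [Real.sqrt_le_left (by norm_num)]
    norm_num
  have hst : 0 < √(t / 2) := Real.sqrt_pos.2 (by linarith)
  have hA2 : (M : ℝ) / √(t / 2) ≤ 2 * (M : ℝ) ^ (1 - 4 * δ) := by
    rw [div_le_iff₀ hst]
    have h5 : (M : ℝ) = (M : ℝ) ^ (1 - 4 * δ) * (M : ℝ) ^ (4 * δ) := by
      rw [← Real.rpow_add hM0]
      have : 1 - 4 * δ + 4 * δ = 1 := by ring
      rw [this, Real.rpow_one]
    have h6 : 0 < (M : ℝ) ^ (1 - 4 * δ) := Real.rpow_pos_of_pos hM0 _
    calc (M : ℝ) = (M : ℝ) ^ (1 - 4 * δ) * (M : ℝ) ^ (4 * δ) := h5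
      _ ≤ (M : ℝ) ^ (1 - 4 * δ) * (2 * √(t / 2)) := by
          apply mul_le_mul_of_nonneg_left (hsqrt.trans hsq2) h6.le
      _ = _ := by ring
  have hB0 : 0 < (M : ℝ) ^ (1 - 4 * δ) := Real.rpow_pos_of_pos hM0 _
  have hlog2 : C * Real.log (t * M) ^ 2 ≤ C * ((1 + x) * Real.log t) ^ 2 := by
    gcongr
  -- the power of the logarithm is absorbed
  have habs : 3 * C * (1 + x) ^ 2 * Real.log t ^ 2 ≤ (M : ℝ) ^ (3 * δ) := by
    have hp : 0 < 3 * C * (1 + x) ^ 2 := by positivity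
    have e1 : t ^ (3 * δ * x / 2) ≤ (M : ℝ) ^ (3 * δ) := by
      calc t ^ (3 * δ * x / 2) ≤ t ^ ((1 - δ) * x * (3 * δ)) := by
            apply Real.rpow_le_rpow_of_exponent_le ht1
            have : 1 / 2 * (x * (3 * δ)) ≤ (1 - δ) * (x * (3 * δ)) :=
              mul_le_mul_of_nonneg_right (by linarith) (by positivity)
            linarith
        _ = (t ^ ((1 - δ) * x)) ^ (3 * δ) := Real.rpow_mul ht0.le _ _
        _ ≤ _ := Real.rpow_le_rpow (Real.rpow_nonneg ht0.le _) hM1 (by positivity)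
    refine le_trans ?_ e1
    have e2 := hY (Real.log t) hlt
    have e3 : Real.log (3 * C * (1 + x) ^ 2 * Real.log t ^ 2) ≤ 3 * δ * x / 2 * Real.log t := by
      rw [Real.log_mul hp.ne' (by positivity), Real.log_pow]
      push_cast
      linarith
    rw [Real.log_le_iff_le_exp (by positivity)] at e3
    rw [Real.rpow_def_of_pos ht0]
    calc _ ≤ Real.exp (3 * δ * x / 2 * Real.log t) := e3
      _ = _ := by rw [mul_comm]
  calc C * Real.log (t * M) ^ 2 * ((M : ℝ) ^ (σ0 + (1 - σ0) / 2) + M / √(t / 2))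
      ≤ C * ((1 + x) * Real.log t) ^ 2 *
          ((M : ℝ) ^ (1 - 4 * δ) + 2 * (M : ℝ) ^ (1 - 4 * δ)) := by
        apply mul_le_mul hlog2 (add_le_add hA1 hA2) (by positivity) (by positivity)
    _ = 3 * C * (1 + x) ^ 2 * Real.log t ^ 2 * (M : ℝ) ^ (1 - 4 * δ) := by ring
    _ ≤ (M : ℝ) ^ (3 * δ) * (M : ℝ) ^ (1 - 4 * δ) :=
        mul_le_mul_of_nonneg_right habs hB0.le
    _ = (M : ℝ) ^ (1 - δ) := by
        rw [← Real.rpow_add hM0]
        congr 1
        ring

end Pool.Agent.H76.PS
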