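import Mathlib
import Pool.Agent.H76.PS.Vis
import Pool.Agent.H76.PS.PrimeU

/-!
# Region: zero-free regions of any shape and prime sums at small scales
-/

set_option autoImplicit false

open Complex

namespace Pool.Agent.H76.PS

open Pool.Agent.H76.CR Pool.Agent.H52.Unc

/-- from prime sums to a zero-free region -/
theorem region_back {ε x : ℝ} (hε : 0 < ε) (hε1 : ε ≤ 1 / 4) (hx : 0 < x) :
    ∃ C : ℝ, 1 ≤ C ∧ ∀ (η : ℝ → ℝ) (t0 : ℝ),
      (∀ t : ℝ, t0 ≤ t → C * Real.log (Real.log t) ≤ η t * Real.log t ∧ η t ≤ 1 / C) →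
      (∀ (t : ℝ) (M : ℕ), t0 ≤ t → t ^ ((1 - ε) * x) ≤ M → (M : ℝ) ≤ t ^ x →
        ‖pSum M t‖ ≤ (M : ℝ) ^ (1 - η t)) →
      ∀ ρ : ℂ, riemannZeta ρ = 0 → t0 ≤ ρ.im → C ≤ ρ.im →
        ρ.re ≤ 1 - (1 - 2 * ε) * η ρ.im := by
  obtain ⟨σx, C0, hσx, hC0, hvis⟩ := vis_near hε hε1 hx
  have hE := Real.exp_pos (Real.exp 1)
  have hE2 := Real.exp_pos (1 / x)
  have hE3 := Real.exp_pos (2 * x + 1)
  have hdσ : 0 < 1 / (1 - σx) := by
    have : 0 < 1 - σx := by linarith
    positivity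
  have hq : 0 < 4 * (C0 + 1) / (ε * x) := by positivity
  refine ⟨C0 + Real.exp (Real.exp 1) + Real.exp (1 / x) + Real.exp (2 * x + 1) +
    1 / (1 - σx) + 4 * (C0 + 1) / (ε * x), by linarith, ?_⟩
  set C : ℝ := C0 + Real.exp (Real.exp 1) + Real.exp (1 / x) + Real.exp (2 * x + 1) +
    1 / (1 - σx) + 4 * (C0 + 1) / (ε * x) with hC
  intro η t0 hη hsum ρ hρ ht0 him
  by_contra hcon
  rw [not_le] at hcon
  set γ : ℝ := ρ.im with hγ
  obtain ⟨hη1, hη2⟩ := hη γ ht0
  have hCC0 : C0 ≤ C := by linarith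
  have hγ0 : 0 < γ := by linarith
  have hγe : Real.exp (Real.exp 1) ≤ γ := by linarith
  have hlγe : Real.exp 1 ≤ Real.log γ := by
    rw [Real.le_log_iff_exp_le hγ0]; exact hγe
  have hlγ0 : 0 < Real.log γ := (Real.exp_pos 1).trans_le hlγe
  have hllγ : 1 ≤ Real.log (Real.log γ) := by
    rw [Real.le_log_iff_exp_le hlγ0]; exact hlγe
  have he1 : (1 : ℝ) + 1 ≤ Real.exp 1 := Real.add_one_le_exp 1
  have hlγ1 : 1 ≤ Real.log γ := by linarith
  have hγ1 : 1 ≤ γ := by
    have := Real.add_one_le_exp (Real.exp 1)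
    linarith
  have hγ2 : 2 ≤ γ := by
    have := Real.add_one_le_exp (Real.exp 1)
    linarith
  have hlx : 1 / x ≤ Real.log γ := by
    rw [Real.le_log_iff_exp_le hγ0]; linarith
  have hlx2 : 2 * x + 1 ≤ Real.log γ := by
    rw [Real.le_log_iff_exp_le hγ0]; linarith
  have hCpos : 0 < C := by linarith
  have hη0 : 0 < η γ := by
    have h1 : 0 < C * Real.log (Real.log γ) := by positivity
    by_contra hneg
    rw [not_lt] at hneg
    have := mul_nonpos_of_nonpos_of_nonneg hneg hlγ0.le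
    linarith
  -- the zero is near `1`
  have hσ : σx ≤ ρ.re := by
    have h1 : (1 - 2 * ε) * η γ ≤ 1 * η γ := mul_le_mul_of_nonneg_right (by linarith) hη0.le
    have h2 : 1 / C ≤ 1 - σx := by
      rw [div_le_iff₀ hCpos]
      have h3 : (1 - σx) * (1 / (1 - σx)) ≤ (1 - σx) * C :=
        mul_le_mul_of_nonneg_left (by linarith) (by linarith)
      rw [mul_one_div_cancel (by linarith : (1 - σx) ≠ 0)] at h3
      exact h3
    linarith
  have hlN : Real.log (γ ^ x) = x * Real.log γ := Real.log_rpow hγ0 x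
  have hlN1 : 1 ≤ Real.log (γ ^ x) := by
    rw [hlN]
    rw [div_le_iff₀ hx] at hlx
    linarith
  obtain ⟨M, hM1, hM2, hM3⟩ := hvis ρ (γ ^ x) hρ hσ (by linarith) le_rfl
  have hM0 : 0 < (M : ℝ) :=
    (Real.rpow_pos_of_pos (Real.rpow_pos_of_pos hγ0 _) _).trans_le hM1
  have hM1' : 1 ≤ (M : ℝ) := by
    have : 0 < M := by exact_mod_cast hM0
    exact_mod_cast this
  rw [← Real.rpow_mul hγ0.le] at hM1
  have hp := hsum γ M ht0 (by rw [mul_comm (1 - ε) x]; exact hM1) hM2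
  set W : ℝ := Real.log (γ + γ ^ x) with hW
  have hWle : W ≤ (2 * x + 1) * Real.log γ := by
    have := logsum (γ := γ) (N := γ ^ x) hx hγ2 le_rfl hlN1
    rw [hlN] at this
    calc W ≤ (2 + 1 / x) * (x * Real.log γ) := this
      _ = (2 * x + 1) * Real.log γ := by field_simp
  have hW1 : 1 ≤ W := by
    refine hlγ1.trans (Real.log_le_log hγ0 ?_)
    have := Real.rpow_pos_of_pos hγ0 x
    linarith
  have hre1 : ρ.re < 1 := re_lt_one hρ
  have hexp : 1 - (1 - ε) * η γ ≤ ρ.re - ε * (1 - ρ.re) := by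
    have h1 : 1 - ρ.re ≤ (1 - 2 * ε) * η γ := by linarith
    have h2 : (1 + ε) * (1 - ρ.re) ≤ (1 + ε) * ((1 - 2 * ε) * η γ) :=
      mul_le_mul_of_nonneg_left h1 (by linarith)
    have h3 : (1 + ε) * ((1 - 2 * ε) * η γ) ≤ (1 - ε) * η γ := by
      have : 0 ≤ 2 * ε ^ 2 * η γ := by positivity
      calc (1 + ε) * ((1 - 2 * ε) * η γ) = (1 - ε) * η γ - 2 * ε ^ 2 * η γ := by ring
        _ ≤ _ := by linarith
    linarith
  have h3 : (M : ℝ) ^ (1 - (1 - ε) * η γ) ≤ W ^ C0 * (M : ℝ) ^ (1 - η γ) := by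
    calc (M : ℝ) ^ (1 - (1 - ε) * η γ) ≤ (M : ℝ) ^ (ρ.re - ε * (1 - ρ.re)) :=
          Real.rpow_le_rpow_of_exponent_le hM1' hexp
      _ ≤ W ^ C0 * ‖pSum M γ‖ := hM3
      _ ≤ W ^ C0 * (M : ℝ) ^ (1 - η γ) := by
          apply mul_le_mul_of_nonneg_left hp
          exact Real.rpow_nonneg (by linarith) _
  have hlog := Real.log_le_log (Real.rpow_pos_of_pos hM0 _) h3
  rw [Real.log_mul (Real.rpow_pos_of_pos (by linarith) _).ne'
    (Real.rpow_pos_of_pos hM0 _).ne', Real.log_rpow hM0, Real.log_rpow (by linarith),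
    Real.log_rpow hM0] at hlog
  have hlogM : x / 2 * Real.log γ ≤ Real.log M := by
    have h4 := Real.log_le_log (Real.rpow_pos_of_pos hγ0 _) hM1
    rw [Real.log_rpow hγ0] at h4
    refine le_trans ?_ h4
    apply mul_le_mul_of_nonneg_right _ hlγ0.le
    nlinarith
  have hlogW : Real.log W ≤ 2 * Real.log (Real.log γ) := by
    have h5 : Real.log W ≤ Real.log ((2 * x + 1) * Real.log γ) :=
      Real.log_le_log (by linarith) hWle
    rw [Real.log_mul (by positivity) hlγ0.ne'] at h5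
    have h6 : Real.log (2 * x + 1) ≤ Real.log (Real.log γ) :=
      Real.log_le_log (by positivity) hlx2
    linarith
  -- `ε η log M ≤ C0 log W`
  have h7 : ε * η γ * Real.log M ≤ C0 * Real.log W := by
    have : (1 - (1 - ε) * η γ) * Real.log M - (1 - η γ) * Real.log M = ε * η γ * Real.log M := by
      ring
    linarith
  have h8 : ε * η γ * (x / 2 * Real.log γ) ≤ ε * η γ * Real.log M :=
    mul_le_mul_of_nonneg_left hlogM (by positivity)
  have h9 : C0 * Real.log W ≤ C0 * (2 * Real.log (Real.log γ)) :=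
    mul_le_mul_of_nonneg_left hlogW (by linarith)
  have h10 : ε * x / 2 * (C * Real.log (Real.log γ)) ≤ ε * x / 2 * (η γ * Real.log γ) :=
    mul_le_mul_of_nonneg_left hη1 (by positivity)
  have h11 : 2 * (C0 + 1) ≤ ε * x / 2 * C := by
    have h12 : 4 * (C0 + 1) / (ε * x) ≤ C := by linarith
    rw [div_le_iff₀ (by positivity)] at h12
    linarith
  have h13 : 2 * (C0 + 1) * Real.log (Real.log γ) ≤ ε * x / 2 * C * Real.log (Real.log γ) :=
    mul_le_mul_of_nonneg_right h11 (by linarith)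
  linarith

/-- from a zero-free region to prime sums -/
theorem region_fwd {ε x : ℝ} (hε : 0 < ε) (hε1 : ε ≤ 1 / 4) (hx : 0 < x) :
    ∃ C : ℝ, 1 ≤ C ∧ ∀ (η : ℝ → ℝ) (t0 : ℝ),
      (∀ t : ℝ, t0 ≤ t → C * Real.log (Real.log t) ≤ η t * Real.log t ∧ η t ≤ 1 / C) →
      (∀ t t' : ℝ, t0 ≤ t → t / 2 ≤ t' → t' ≤ 2 * t → (1 - ε) * η t ≤ η t') →
      (∀ ρ : ℂ, riemannZeta ρ = 0 → t0 ≤ ρ.im → ρ.re ≤ 1 - η ρ.im) →
      ∀ (t : ℝ) (M : ℕ), 2 * t0 ≤ t → C ≤ t → t ^ ((1 - ε) * x) ≤ M → (M : ℝ) ≤ t ^ x →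
        ‖pSum M t‖ ≤ (M : ℝ) ^ (1 - (1 - 4 * ε) * η t) := by
  obtain ⟨C2, hC2, hprime⟩ := primeU hε (by linarith)
  have hE := Real.exp_pos (Real.exp 1)
  have hE2 := Real.exp_pos (6 * C2 * (1 + x) ^ 2)
  have hq : 0 < 4 / (ε * x) := by positivity
  refine ⟨Real.exp (Real.exp 1) + Real.exp (6 * C2 * (1 + x) ^ 2) + 2 * x + 4 / (ε * x) + 2,
    by linarith, ?_⟩
  set C : ℝ := Real.exp (Real.exp 1) + Real.exp (6 * C2 * (1 + x) ^ 2) + 2 * x + 4 / (ε * x) + 2
    with hC
  intro η t0 hη hreg hz t M ht0 htC hM1 hM2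
  have hee := Real.add_one_le_exp (Real.exp 1)
  have he1 : (1 : ℝ) + 1 ≤ Real.exp 1 := Real.add_one_le_exp 1
  have htpos : 0 < t := by linarith
  have ht0' : t0 ≤ t := by
    by_contra hcon
    rw [not_le] at hcon
    linarith
  obtain ⟨hη1, hη2⟩ := hη t ht0'
  have hle : Real.exp 1 ≤ Real.log t := by
    rw [Real.le_log_iff_exp_le htpos]; linarith
  have hl0 : 0 < Real.log t := by linarith
  have hll : 1 ≤ Real.log (Real.log t) := by
    rw [Real.le_log_iff_exp_le hl0]; exact hle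
  have hl1 : 1 ≤ Real.log t := by linarith
  have ht1 : 1 ≤ t := by linarith
  have hCpos : 0 < C := by linarith
  have hη0 : 0 < η t := by
    have h1 : 0 < C * Real.log (Real.log t) := by positivity
    by_contra hneg
    rw [not_lt] at hneg
    have := mul_nonpos_of_nonpos_of_nonneg hneg hl0.le
    linarith
  have hηC : η t * C ≤ 1 := by
    rw [le_div_iff₀ hCpos] at hη2; exact hη2
  have hη2' : η t ≤ 1 / 2 := by
    have : η t * 2 ≤ η t * C := mul_le_mul_of_nonneg_left (by linarith) hη0.le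
    linarith
  have hηx : η t * x ≤ 1 / 2 := by
    have : η t * (2 * x) ≤ η t * C := mul_le_mul_of_nonneg_left (by linarith) hη0.le
    linarith
  have hηlog : 2 ≤ η t * Real.log t := by
    have : 2 * 1 ≤ C * Real.log (Real.log t) := mul_le_mul (by linarith) hll zero_le_one hCpos.le
    linarith
  -- the box
  set θ : ℝ := 1 - (1 - ε) * η t with hθ
  have hεη : 0 < (1 - ε) * η t := mul_pos (by linarith) hη0
  have hεη1 : (1 - ε) * η t ≤ 1 * η t := mul_le_mul_of_nonneg_right (by linarith) hη0.le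
  have hεη2 : 3 / 4 * η t ≤ (1 - ε) * η t := mul_le_mul_of_nonneg_right (by linarith) hη0.le
  have hM0 : 0 < (M : ℝ) := (Real.rpow_pos_of_pos htpos _).trans_le hM1
  have hMN : 1 ≤ M := by
    have : 0 < M := by exact_mod_cast hM0
    omega
  have hM1' : 1 ≤ (M : ℝ) := by exact_mod_cast hMN
  have ht8 : 8 ≤ t := by
    have h1 : Real.exp 1 + 1 ≤ Real.exp (Real.exp 1) := hee
    have h2 : (2.7182818283 : ℝ) < Real.exp 1 := Real.exp_one_gt_d9
    have h3 : (1 : ℝ) + 6 * C2 * (1 + x) ^ 2 ≤ Real.exp (6 * C2 * (1 + x) ^ 2) := by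
      have := Real.add_one_le_exp (6 * C2 * (1 + x) ^ 2)
      linarith
    have h4 : 6 * 1 * 1 ≤ 6 * C2 * (1 + x) ^ 2 := by
      have : (1 : ℝ) ≤ (1 + x) ^ 2 := by nlinarith
      gcongr
    linarith
  have hbd := hprime θ t (t / 2) M (by linarith) (by linarith) (by linarith) le_rfl hMN (by
    intro s hs hre
    by_contra hcon
    rw [not_lt, abs_le] at hcon
    have h1 : t / 2 ≤ s.im := by linarith [hcon.1]
    have h2 : s.im ≤ 2 * t := by linarith [hcon.2]
    have h3 := hz s hs (by linarith)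
    have h4 := hreg t s.im ht0' h1 h2
    linarith)
  refine hbd.trans ?_
  have hlM : Real.log M ≤ x * Real.log t := by
    have := Real.log_le_log hM0 hM2
    rwa [Real.log_rpow htpos] at this
  have hlM0 : 0 ≤ Real.log M := Real.log_nonneg hM1'
  have hltM : Real.log (t * M) ≤ (1 + x) * Real.log t := by
    rw [Real.log_mul htpos.ne' hM0.ne']
    linarith
  have hltM0 : 0 ≤ Real.log (t * M) := by
    rw [Real.log_mul htpos.ne' hM0.ne']
    linarith
  have h1θ : 1 - θ = (1 - ε) * η t := by rw [hθ]; ring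
  have hinv : C2 / (1 - θ) ≤ C2 * Real.log t := by
    rw [h1θ, div_le_iff₀ hεη]
    have h1 : 1 ≤ Real.log t * ((1 - ε) * η t) := by
      have h2 : Real.log t * (3 / 4 * η t) ≤ Real.log t * ((1 - ε) * η t) :=
        mul_le_mul_of_nonneg_left hεη2 hl0.le
      linarith
    calc C2 = C2 * 1 := (mul_one _).symm
      _ ≤ C2 * (Real.log t * ((1 - ε) * η t)) := mul_le_mul_of_nonneg_left h1 (by linarith)
      _ = _ := by ring
  -- the two terms
  set e : ℝ := 1 - (1 - 2 * ε) * η t with he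
  have hA1 : (M : ℝ) ^ (θ + ε * (1 - θ)) ≤ (M : ℝ) ^ e := by
    apply Real.rpow_le_rpow_of_exponent_le hM1'
    rw [h1θ, hθ, he]
    have : 0 ≤ ε ^ 2 * η t := by positivity
    nlinarith
  have hsqrt : (M : ℝ) ^ ((1 - 2 * ε) * η t) ≤ √t := by
    calc (M : ℝ) ^ ((1 - 2 * ε) * η t) ≤ (t ^ x) ^ ((1 - 2 * ε) * η t) :=
          Real.rpow_le_rpow hM0.le hM2 (mul_nonneg (by linarith) hη0.le)
      _ = t ^ (x * ((1 - 2 * ε) * η t)) := (Real.rpow_mul htpos.le _ _).symm
      _ ≤ t ^ (1 / 2 : ℝ) := by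
          apply Real.rpow_le_rpow_of_exponent_le ht1
          have h1 : (1 - 2 * ε) * η t ≤ 1 * η t :=
            mul_le_mul_of_nonneg_right (by linarith) hη0.le
          calc x * ((1 - 2 * ε) * η t) ≤ x * (1 * η t) := mul_le_mul_of_nonneg_left h1 hx.le
            _ = η t * x := by ring
            _ ≤ 1 / 2 := hηx
      _ = √t := (Real.sqrt_eq_rpow t).symm
  have hsq2 : √t ≤ 2 * √(t / 2) := by
    have h4 : √t = √2 * √(t / 2) := by
      rw [← Real.sqrt_mul (by norm_num)]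
      congr 1
      ring
    rw [h4]
    apply mul_le_mul_of_nonneg_right _ (Real.sqrt_nonneg _)
    rw [Real.sqrt_le_left (by norm_num)]
    norm_num
  have hst : 0 < √(t / 2) := Real.sqrt_pos.2 (by linarith)
  have hB0 : 0 < (M : ℝ) ^ e := Real.rpow_pos_of_pos hM0 _
  have hA2 : (M : ℝ) / √(t / 2) ≤ 2 * (M : ℝ) ^ e := by
    rw [div_le_iff₀ hst]
    have h5 : (M : ℝ) = (M : ℝ) ^ e * (M : ℝ) ^ ((1 - 2 * ε) * η t) := by
      rw [← Real.rpow_add hM0]
      have : e + (1 - 2 * ε) * η t = 1 := by rw [he]; ring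
      rw [this, Real.rpow_one]
    calc (M : ℝ) = (M : ℝ) ^ e * (M : ℝ) ^ ((1 - 2 * ε) * η t) := h5
      _ ≤ (M : ℝ) ^ e * (2 * √(t / 2)) :=
          mul_le_mul_of_nonneg_left (hsqrt.trans hsq2) hB0.le
      _ = _ := by ring
  have hlog2 : Real.log (t * M) ^ 2 ≤ ((1 + x) * Real.log t) ^ 2 := by gcongr
  have habs : 3 * C2 * (1 + x) ^ 2 * Real.log t ^ 3 ≤ (M : ℝ) ^ (2 * ε * η t) := by
    have hp : 0 < 3 * C2 * (1 + x) ^ 2 := by positivity
    have e1 : Real.exp (4 * Real.log (Real.log t)) ≤ (M : ℝ) ^ (2 * ε * η t) := by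
      rw [Real.rpow_def_of_pos hM0]
      apply Real.exp_le_exp.2
      have h4 : x / 2 * Real.log t ≤ Real.log M := by
        have h5 := Real.log_le_log (Real.rpow_pos_of_pos htpos _) hM1
        rw [Real.log_rpow htpos] at h5
        refine le_trans ?_ h5
        apply mul_le_mul_of_nonneg_right _ hl0.le
        nlinarith
      have h6 : x / 2 * Real.log t * (2 * ε * η t) ≤ Real.log M * (2 * ε * η t) :=
        mul_le_mul_of_nonneg_right h4 (by positivity)
      have h7 : ε * x * (C * Real.log (Real.log t)) ≤ ε * x * (η t * Real.log t) :=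
        mul_le_mul_of_nonneg_left hη1 (by positivity)
      have h8 : 4 ≤ ε * x * C := by
        have h9 : 4 / (ε * x) ≤ C := by linarith
        rw [div_le_iff₀ (by positivity)] at h9
        linarith
      have h10 : 4 * Real.log (Real.log t) ≤ ε * x * C * Real.log (Real.log t) :=
        mul_le_mul_of_nonneg_right h8 (by linarith)
      linarith
    refine le_trans ?_ e1
    have e2 : Real.exp (4 * Real.log (Real.log t)) = Real.log t ^ 3 * Real.log t := by
      have : 4 * Real.log (Real.log t) = Real.log (Real.log t ^ 4) := by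
        rw [Real.log_pow]; norm_num
      rw [this, Real.exp_log (by positivity)]
      ring
    rw [e2]
    have e3 : 3 * C2 * (1 + x) ^ 2 ≤ Real.log t := by
      rw [Real.le_log_iff_exp_le htpos]
      have : Real.exp (3 * C2 * (1 + x) ^ 2) ≤ Real.exp (6 * C2 * (1 + x) ^ 2) := by
        apply Real.exp_le_exp.2
        have : 0 ≤ 3 * C2 * (1 + x) ^ 2 := hp.le
        linarith
      linarith
    calc 3 * C2 * (1 + x) ^ 2 * Real.log t ^ 3 ≤ Real.log t * Real.log t ^ 3 :=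
          mul_le_mul_of_nonneg_right e3 (by positivity)
      _ = _ := by ring
  calc C2 / (1 - θ) * Real.log (t * M) ^ 2 * ((M : ℝ) ^ (θ + ε * (1 - θ)) + M / √(t / 2))
      ≤ C2 * Real.log t * ((1 + x) * Real.log t) ^ 2 * ((M : ℝ) ^ e + 2 * (M : ℝ) ^ e) := by
        apply mul_le_mul (mul_le_mul hinv hlog2 (by positivity) (by positivity))
          (add_le_add hA1 hA2) (by positivity) (by positivity)
    _ = 3 * C2 * (1 + x) ^ 2 * Real.log t ^ 3 * (M : ℝ) ^ e := by ring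
    _ ≤ (M : ℝ) ^ (2 * ε * η t) * (M : ℝ) ^ e := mul_le_mul_of_nonneg_right habs hB0.le
    _ = (M : ℝ) ^ (1 - (1 - 4 * ε) * η t) := by
        rw [← Real.rpow_add hM0]
        congr 1
        rw [he]
        ring

end Pool.Agent.H76.PS
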