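import Mathlib
import Pool.Agent.H76.PS.Crit
import Pool.Agent.H76.PS.Region

/-!
# Main: zeros near `Re = 1` and prime sums at small scales
-/

set_option autoImplicit false

open Complex

namespace Pool.Agent.H76.PS

open Pool.Agent.H76.CR Pool.Agent.H52.Unc

/-- some half-plane `Re s ≥ σ0`, `1/2 < σ0 < 1`, is free of zeros -/
def ZeroFree : Prop :=
  ∃ σ0 : ℝ, 1 / 2 < σ0 ∧ σ0 < 1 ∧ ∀ s : ℂ, σ0 ≤ s.re → riemannZeta s ≠ 0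

/-- power saving for `∑_{p ≤ M} p^(-it)` at the scale `t^((1-δ)x) ≤ M ≤ t^x` -/
def Saving (x : ℝ) : Prop :=
  ∃ δ t0 : ℝ, 0 < δ ∧ δ < 1 ∧ ∀ (t : ℝ) (M : ℕ), t0 ≤ t → t ^ ((1 - δ) * x) ≤ M →
    (M : ℝ) ≤ t ^ x → ‖pSum M t‖ ≤ (M : ℝ) ^ (1 - δ)

/-- the zero `ρ` is seen by the primes up to `N` -/
def Seen (ε C N : ℝ) (ρ : ℂ) : Prop :=
  ∃ M : ℕ, N ^ (1 - ε) ≤ M ∧ (M : ℝ) ≤ N ∧
    (M : ℝ) ^ (ρ.re - ε * (1 - ρ.re)) ≤ Real.log (ρ.im + N) ^ C * ‖pSum M ρ.im‖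

/-- `η` is an admissible shape: `C loglog t / log t ≤ η(t) ≤ 1/C` for `t ≥ t0` -/
def Shape (C t0 : ℝ) (η : ℝ → ℝ) : Prop :=
  ∀ t : ℝ, t0 ≤ t → C * Real.log (Real.log t) ≤ η t * Real.log t ∧ η t ≤ 1 / C

theorem main :
    (∀ x : ℝ, 0 < x → (ZeroFree ↔ Saving x)) ∧
    (∀ ε x : ℝ, 0 < ε → ε ≤ 1 / 4 → 0 < x → ∃ σx C : ℝ, σx < 1 ∧ 1 ≤ C ∧ ∀ (ρ : ℂ) (N : ℝ),
      riemannZeta ρ = 0 → σx ≤ ρ.re → C ≤ ρ.im → ρ.im ^ x ≤ N → Seen ε C N ρ) ∧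
    (∀ ε : ℝ, 0 < ε → ε ≤ 1 / 4 → ∃ x C : ℝ, 0 < x ∧ 1 ≤ C ∧ ∀ (ρ : ℂ) (N : ℝ),
      riemannZeta ρ = 0 → 1 / 2 + ε ≤ ρ.re → C ≤ ρ.im → ρ.im ^ x ≤ N → Seen ε C N ρ) ∧
    (∀ ε : ℝ, 0 < ε → ε ≤ 1 / 2 → ∃ C : ℝ, 1 ≤ C ∧ ∀ (θ t U : ℝ) (M : ℕ), 1 / 2 ≤ θ → θ < 1 →
      4 ≤ U → U ≤ t / 2 → 1 ≤ M →
      (∀ s : ℂ, riemannZeta s = 0 → θ < s.re → U < |s.im - t|) →
      ‖pSum M t‖ ≤ C / (1 - θ) * Real.log (t * M) ^ 2 *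
        ((M : ℝ) ^ (θ + ε * (1 - θ)) + M / √U)) ∧
    (∀ ε x : ℝ, 0 < ε → ε ≤ 1 / 4 → 0 < x → ∃ C : ℝ, 1 ≤ C ∧ ∀ (η : ℝ → ℝ) (t0 : ℝ),
      Shape C t0 η →
      ((∀ (t : ℝ) (M : ℕ), t0 ≤ t → t ^ ((1 - ε) * x) ≤ M → (M : ℝ) ≤ t ^ x →
          ‖pSum M t‖ ≤ (M : ℝ) ^ (1 - η t)) →
        ∀ ρ : ℂ, riemannZeta ρ = 0 → t0 ≤ ρ.im → C ≤ ρ.im →
          ρ.re ≤ 1 - (1 - 2 * ε) * η ρ.im) ∧
      ((∀ t t' : ℝ, t0 ≤ t → t / 2 ≤ t' → t' ≤ 2 * t → (1 - ε) * η t ≤ η t') →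
        (∀ ρ : ℂ, riemannZeta ρ = 0 → t0 ≤ ρ.im → ρ.re ≤ 1 - η ρ.im) →
        ∀ (t : ℝ) (M : ℕ), 2 * t0 ≤ t → C ≤ t → t ^ ((1 - ε) * x) ≤ M → (M : ℝ) ≤ t ^ x →
          ‖pSum M t‖ ≤ (M : ℝ) ^ (1 - (1 - 4 * ε) * η t))) := by
  refine ⟨?_, fun ε x hε hε1 hx => vis_near hε hε1 hx, fun ε hε hε1 => vis_wide hε hε1,
    fun ε hε hε1 => primeU hε hε1, ?_⟩
  · intro x hx
    constructor
    · rintro ⟨σ0, h1, h2, h3⟩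
      exact crit_fwd h1 h2 h3 hx
    · rintro ⟨δ, t0, hδ, hδ1, h⟩
      exact crit_back hx hδ hδ1 h
  · intro ε x hε hε1 hx
    obtain ⟨Ca, hCa, ha⟩ := region_back hε hε1 hx
    obtain ⟨Cb, hCb, hb⟩ := region_fwd hε hε1 hx
    have hE := Real.exp_pos (Real.exp 1)
    have hmax1 : Ca ≤ max Ca Cb := le_max_left _ _
    have hmax2 : Cb ≤ max Ca Cb := le_max_right _ _
    refine ⟨max Ca Cb + 2 * Real.exp (Real.exp 1), by linarith, fun η t0 hη => ?_⟩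
    -- weaken the shape
    have hshape : ∀ C' : ℝ, 1 ≤ C' → C' ≤ max Ca Cb + 2 * Real.exp (Real.exp 1) →
        ∀ t : ℝ, max t0 (Real.exp (Real.exp 1)) ≤ t →
        C' * Real.log (Real.log t) ≤ η t * Real.log t ∧ η t ≤ 1 / C' := by
      intro C' h1 h2 t ht
      obtain ⟨a1, a2⟩ := hη t ((le_max_left _ _).trans ht)
      have ht2 : Real.exp (Real.exp 1) ≤ t := (le_max_right _ _).trans ht
      have htpos : 0 < t := (Real.exp_pos _).trans_le ht2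
      have hl : Real.exp 1 ≤ Real.log t := by
        rw [Real.le_log_iff_exp_le htpos]; exact ht2
      have hll : 1 ≤ Real.log (Real.log t) := by
        rw [Real.le_log_iff_exp_le ((Real.exp_pos 1).trans_le hl)]; exact hl
      refine ⟨le_trans (mul_le_mul_of_nonneg_right h2 (by linarith)) a1, a2.trans ?_⟩
      exact one_div_le_one_div_of_le (by linarith) h2
    constructor
    · intro hsum ρ hρ ht0 him
      exact ha η (max t0 (Real.exp (Real.exp 1))) (hshape Ca hCa (by linarith))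
        (fun t M ht => hsum t M ((le_max_left _ _).trans ht)) ρ hρ
        (max_le ht0 (by linarith)) (by linarith)
    · intro hreg hz t M ht0 ht hM1 hM2
      refine hb η (max t0 (Real.exp (Real.exp 1))) (hshape Cb hCb (by linarith))
        (fun t t' ht => hreg t t' ((le_max_left _ _).trans ht))
        (fun ρ hρ hρ0 => hz ρ hρ ((le_max_left _ _).trans hρ0)) t M ?_ (by linarith) hM1 hM2
      rw [mul_max_of_nonneg _ _ (by norm_num)]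
      exact max_le ht0 (by linarith)

end Pool.Agent.H76.PS
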