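import Mathlib
import Pool.Agent.H6.Win.ZetaLoc
import Pool.Agent.H76.CR.ZFacts

/-!
# LogD: `ζ'/ζ` in a zero-free box

`zeta_loc` (`H6/Win/ZetaLoc.lean`) with `σ1 = θ + ε/2`, `σ2 = θ + ε` (`σ2 < 2`) at the height
`im s`: every `u ∈ S` has `re u ≥ σ1 > θ`, `|im u - im s| ≤ 2 - σ1 ≤ 3/2`, so `|im u - t| ≤ U`, and
`ζ u = 0` (`u ≠ 1` since `|im u| ≥ t - U ≥ t/2 ≥ 1`), which is impossible: `S = ∅`.  So
`‖zetaPole'/zetaPole (s)‖ ≤ C log(|im s| + 2)`, and `ζ'/ζ = zetaPole'/zetaPole - 1/(s-1)`.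
`ζ s ≠ 0` in the same way (`re s ≥ θ + ε > θ`, `|im s - t| ≤ U`).  If `re s > 2` is not needed.
If `σ2 ≥ 2` cannot happen: `θ < 1`, `ε ≤ 1/2`.  About 70 lines.
-/

set_option autoImplicit false

open Complex Metric

namespace Pool.Agent.H76.PS

open Pool.Agent.H6 Pool.Agent.H6.Win Pool.Agent.H76

theorem logd {θ ε : ℝ} (hθ : 1 / 2 ≤ θ) (hθ1 : θ < 1) (hε : 0 < ε) (hε1 : ε ≤ 1 / 2) :
    ∃ C : ℝ, 1 ≤ C ∧ ∀ t U : ℝ, 4 ≤ t → 4 ≤ U → U ≤ t / 2 →
      (∀ s : ℂ, riemannZeta s = 0 → θ < s.re → U < |s.im - t|) →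
      ∀ s : ℂ, θ + ε ≤ s.re → s.re ≤ 2 → |s.im - t| ≤ U - 2 →
        riemannZeta s ≠ 0 ∧ ‖deriv riemannZeta s / riemannZeta s‖ ≤ C * Real.log t := by
  obtain ⟨C, hC, hmain⟩ := zeta_loc (σ1 := θ + ε / 2) (σ2 := θ + ε) (by linarith) (by linarith)
    (by linarith)
  refine ⟨2 * C + 1, by linarith, fun t U ht hU hUt hz s hs hs2 him => ?_⟩
  have hlog : 1 ≤ Real.log t := by
    rw [Real.le_log_iff_exp_le (by linarith)]
    have := Real.exp_one_lt_d9
    linarith
  have him' := abs_le.1 him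
  have hims : 4 ≤ s.im := by linarith [him'.1]
  have hne1 : s ≠ 1 := by
    intro h
    rw [h] at hims
    simp at hims
    linarith
  have hζ : riemannZeta s ≠ 0 := by
    intro h
    have := hz s h (by linarith)
    linarith
  obtain ⟨S, hS, -, -, hS4⟩ := hmain s.im
  have hemp : S = ∅ := by
    rw [Finset.eq_empty_iff_forall_notMem]
    intro u hu
    obtain ⟨hub, hu0⟩ := (hS u).1 hu
    rw [mem_closedBall, dist_eq_norm] at hub
    have h1 := (abs_re_le_norm _).trans hub
    have h2 := (abs_im_le_norm _).trans hub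
    have e1 : (u - (2 + (s.im : ℂ) * I)).re = u.re - 2 := by simp
    have e2 : (u - (2 + (s.im : ℂ) * I)).im = u.im - s.im := by simp
    rw [e1] at h1
    rw [e2] at h2
    have h1' := abs_le.1 h1
    have h2' := abs_le.1 h2
    have hu1 : u ≠ 1 := by
      intro h
      rw [h] at h2'
      simp at h2'
      linarith [h2'.1]
    have hlt := hz u ((CR.zetaPole_eq_zero_iff hu1).1 hu0) (by linarith [h1'.1])
    have hle : |u.im - t| ≤ U := by
      rw [abs_le]
      constructor <;> linarith [h2'.1, h2'.2, him'.1, him'.2]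
    linarith
  have hsb : s ∈ closedBall ((2:ℂ) + (s.im : ℂ) * I) (2 - (θ + ε)) := by
    rw [mem_closedBall, dist_eq_norm]
    have e : s - (2 + (s.im : ℂ) * I) = ((s.re - 2 : ℝ) : ℂ) := by
      apply Complex.ext <;> simp
    rw [e, norm_real, Real.norm_eq_abs, abs_le]
    constructor <;> linarith
  have hzp : zetaPole s ≠ 0 := fun h => hζ ((CR.zetaPole_eq_zero_iff hne1).1 h)
  have hb := hS4 s hsb hzp
  rw [hemp, Finset.sum_empty, sub_zero] at hb
  -- the logarithm
  have hl : Real.log (|s.im| + 2) ≤ 2 * Real.log t := by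
    have h3 : |s.im| + 2 ≤ t ^ 2 := by
      rw [abs_of_nonneg (by linarith)]
      nlinarith [him'.2]
    calc Real.log (|s.im| + 2) ≤ Real.log (t ^ 2) :=
          Real.log_le_log (by positivity) h3
      _ = 2 * Real.log t := by rw [Real.log_pow]; norm_num
  -- the derivative
  have hd : deriv zetaPole s = riemannZeta s + (s - 1) * deriv riemannZeta s := by
    have h1 : zetaPole =ᶠ[nhds s] fun z => (z - 1) * riemannZeta z := by
      filter_upwards [isOpen_compl_singleton.mem_nhds hne1] with z hz'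
      unfold zetaPole
      rw [Function.update_of_ne hz']
    rw [h1.deriv_eq]
    have h2 : HasDerivAt (fun z : ℂ => (z - 1) * riemannZeta z)
        (1 * riemannZeta s + (s - 1) * deriv riemannZeta s) s :=
      ((hasDerivAt_id s).sub_const 1).mul (differentiableAt_riemannZeta hne1).hasDerivAt
    rw [h2.deriv, one_mul]
  have hv : zetaPole s = (s - 1) * riemannZeta s := by
    unfold zetaPole
    rw [Function.update_of_ne hne1]
  have hs1 : s - 1 ≠ 0 := sub_ne_zero.2 hne1
  have heq : deriv riemannZeta s / riemannZeta s = deriv zetaPole s / zetaPole s - 1 / (s - 1) := by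
    rw [hd, hv]
    field_simp
    ring
  have hinv : ‖1 / (s - 1)‖ ≤ 1 := by
    rw [norm_div, norm_one, div_le_one (norm_pos_iff.2 hs1)]
    have := abs_im_le_norm (s - 1)
    rw [sub_im, one_im, sub_zero, abs_of_nonneg (by linarith)] at this
    linarith
  refine ⟨hζ, ?_⟩
  rw [heq]
  calc ‖deriv zetaPole s / zetaPole s - 1 / (s - 1)‖
      ≤ ‖deriv zetaPole s / zetaPole s‖ + ‖1 / (s - 1)‖ := norm_sub_le _ _
    _ ≤ C * (2 * Real.log t) + 1 := by
        refine add_le_add (hb.trans ?_) hinv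
        exact mul_le_mul_of_nonneg_left hl hC.le
    _ ≤ (2 * C + 1) * Real.log t := by linarith

end Pool.Agent.H76.PS
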