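import Mathlib
import Pool.Agent.H76.PS.LogD
import Pool.Agent.H76.PS.KernB
import Pool.Agent.H6.LiouLoc

/-!
# ShiftB: the smoothed sum, by moving the line of integration inside a zero-free box

`a n = Λ(n) n^(-it)`, `LSeries a w = -ζ'/ζ(w+it)` for `re w > 1`.  `perronR` (`H6/PerronR.lean`)
with `c = 1 + 1/log X2` (`X2 ≥ e`): the sum is `(1/2π) ∫ kernR X1 X2 (c+iy) (-ζ'/ζ)(c+i(y+t)) dy`.
`V = U - 2 ≥ U/2`.  Tails `|y| ≥ V`: `kern2` and `‖ζ'/ζ(c+i(y+t))‖ ≤ -ζ'/ζ(c) ≤ C log X2`, `X2^c =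
e X2`, total `≤ C X2^2 log X2/V`.  The middle part: Cauchy's theorem on the rectangle
`[θ+ε, c] × [-V, V]` (`Complex.integral_boundary_rect_eq_zero_of_differentiableOn`); there
`w + it` is in the box of `logd`, `ζ(w+it) ≠ 0`, `w + it ≠ 1`.  Horizontal sides: `kern1`,
`≤ (c - θ - ε) (X2-X1) X2^c/V · C log t`.  Left side: `kern1`,
`(X2-X1) X2^(θ+ε) C log t ∫_{-V}^{V} dy/‖θ+ε+iy‖ ≤ (X2-X1) X2^(θ+ε) C' log t (1 + log V)`.
`-ζ'/ζ(c) ≤ C/(c-1)`: for instance `Pool.Agent.H76.SV` or `H6` (`∑ Λ(n) n^(-c) ≤ C/(c-1)` for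
`1 < c ≤ 2`).  Since `X2 - X1 ≤ X2`, everything is `≤ C (log(t X2))^2 ((X2-X1) X2^(θ+ε) + X2^2/U)`.
About 250 lines.
-/

set_option autoImplicit false

open Complex

namespace Pool.Agent.H76.PS

open Pool.Agent.H6

private noncomputable def lamC (n : ℕ) : ℂ := ((ArithmeticFunction.vonMangoldt n : ℝ) : ℂ)

private noncomputable def twC (t : ℝ) (n : ℕ) : ℂ :=
  ((ArithmeticFunction.vonMangoldt n : ℝ) : ℂ) * (n : ℂ) ^ (-(t * I))

private lemma term_tw (t : ℝ) (s : ℂ) :
    LSeries.term (twC t) s = LSeries.term lamC (s + t * I) := by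
  ext n
  rcases eq_or_ne n 0 with rfl | hn
  · simp
  · have hn' : (n : ℂ) ≠ 0 := by exact_mod_cast hn
    rw [LSeries.term_of_ne_zero hn, LSeries.term_of_ne_zero hn, cpow_add _ _ hn', twC, lamC,
      cpow_neg]
    have h1 : (n : ℂ) ^ s ≠ 0 := by
      rw [Ne, cpow_eq_zero_iff]; tauto
    have h2 : (n : ℂ) ^ ((t : ℂ) * I) ≠ 0 := by
      rw [Ne, cpow_eq_zero_iff]; tauto
    field_simp

private lemma summ_lam {s : ℂ} (hs : 1 < s.re) : LSeriesSummable lamC s :=
  ArithmeticFunction.LSeriesSummable_vonMangoldt hs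

private lemma summ_tw {t : ℝ} {s : ℂ} (hs : 1 < s.re) : LSeriesSummable (twC t) s := by
  unfold LSeriesSummable
  rw [term_tw]
  exact summ_lam (by simpa using hs)

private lemma lser_tw {t : ℝ} {s : ℂ} (hs : 1 < s.re) :
    LSeries (twC t) s = - (deriv riemannZeta (s + t * I) / riemannZeta (s + t * I)) := by
  have h1 : LSeries (twC t) s = LSeries lamC (s + t * I) := by
    unfold LSeries
    rw [term_tw]
  have h4 : LSeries lamC (s + t * I) =
      - deriv riemannZeta (s + t * I) / riemannZeta (s + t * I) :=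
    ArithmeticFunction.LSeries_vonMangoldt_eq_deriv_riemannZeta_div (by simpa using hs)
  rw [h1, h4, neg_div]

/-- `‖L(s)‖ ≤ ‖L(re s)‖` -/
private lemma lser_norm_le {s : ℂ} (hs : 1 < s.re) :
    ‖LSeries lamC s‖ ≤ ‖LSeries lamC (s.re : ℂ)‖ := by
  have h1 : Summable fun n => ‖LSeries.term lamC s n‖ := (summ_lam hs).norm
  have h2 : ∀ n, ((‖LSeries.term lamC s n‖ : ℝ) : ℂ) = LSeries.term lamC (s.re : ℂ) n := by
    intro n
    rcases eq_or_ne n 0 with rfl | hn
    · simp
    · have hn' : (0 : ℝ) < n := by exact_mod_cast Nat.pos_of_ne_zero hn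
      rw [LSeries.term_of_ne_zero hn, LSeries.term_of_ne_zero hn, norm_div, lamC, norm_real,
        Real.norm_of_nonneg ArithmeticFunction.vonMangoldt_nonneg,
        Complex.norm_natCast_cpow_of_pos (Nat.pos_of_ne_zero hn)]
      push_cast
      rw [Complex.ofReal_cpow hn'.le]
      simp
  calc ‖LSeries lamC s‖ ≤ ∑' n, ‖LSeries.term lamC s n‖ := norm_tsum_le_tsum_norm h1
    _ = ‖((∑' n, ‖LSeries.term lamC s n‖ : ℝ) : ℂ)‖ := by
        rw [norm_real, Real.norm_of_nonneg (tsum_nonneg fun n => norm_nonneg _)]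
    _ = ‖LSeries lamC (s.re : ℂ)‖ := by
        rw [Complex.ofReal_tsum]
        simp_rw [h2]
        rfl

private lemma zp_logderiv {s : ℂ} (hs : s ≠ 1) (hz : riemannZeta s ≠ 0) :
    deriv zetaPole s / zetaPole s = 1 / (s - 1) + deriv riemannZeta s / riemannZeta s := by
  have h2 : zetaPole =ᶠ[nhds s] fun s ↦ (s - 1) * riemannZeta s := by
    filter_upwards [isOpen_ne.mem_nhds hs] with z hz
    exact zetaPole_of_ne hz
  have h3 : HasDerivAt (fun s ↦ (s - 1) * riemannZeta s)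
      (1 * riemannZeta s + (s - 1) * deriv riemannZeta s) s :=
    ((hasDerivAt_id s).sub_const 1).mul (differentiableAt_riemannZeta hs).hasDerivAt
  have h4 : s - 1 ≠ 0 := sub_ne_zero.mpr hs
  rw [h2.deriv_eq, h3.deriv, zetaPole_of_ne hs]
  field_simp

private lemma lam_bound : ∃ C : ℝ, 1 ≤ C ∧ ∀ s : ℂ, 1 < s.re → s.re ≤ 2 →
    ‖deriv riemannZeta s / riemannZeta s‖ ≤ C / (s.re - 1) := by
  have hcont : ContinuousOn (fun x : ℝ => ‖deriv zetaPole (x : ℂ) / zetaPole (x : ℂ)‖)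
      (Set.Icc (1 : ℝ) 2) := by
    have h4 : Continuous (deriv zetaPole) := by
      have h5 : ContDiff ℂ 1 zetaPole := zetaPole_differentiable.contDiff
      exact h5.continuous_deriv le_rfl
    have h5 : Continuous fun x : ℝ => deriv zetaPole (x : ℂ) := h4.comp (by fun_prop)
    have h6 : Continuous fun x : ℝ => zetaPole (x : ℂ) :=
      zetaPole_differentiable.continuous.comp (by fun_prop)
    refine (h5.continuousOn.div h6.continuousOn fun x hx => ?_).norm
    exact zetaPole_ne_zero_of_one_le (by simpa using hx.1)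
  obtain ⟨M, hM⟩ := isCompact_Icc.exists_bound_of_continuousOn hcont
  have hM0 : 0 ≤ M := (norm_nonneg _).trans (hM 1 (by norm_num))
  refine ⟨M + 1, by linarith, fun s hs hs2 => ?_⟩
  have hc : 0 < s.re - 1 := by linarith
  have e1 : LSeries lamC s = - deriv riemannZeta s / riemannZeta s :=
    ArithmeticFunction.LSeries_vonMangoldt_eq_deriv_riemannZeta_div hs
  have hsre : 1 < ((s.re : ℂ)).re := by simpa using hs
  have e2 : LSeries lamC (s.re : ℂ) =
      - deriv riemannZeta (s.re : ℂ) / riemannZeta (s.re : ℂ) :=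
    ArithmeticFunction.LSeries_vonMangoldt_eq_deriv_riemannZeta_div hsre
  have h1 := lser_norm_le hs
  rw [e1, e2, neg_div, norm_neg, neg_div, norm_neg] at h1
  refine h1.trans ?_
  have hne1 : (s.re : ℂ) ≠ 1 := by
    intro h
    rw [h] at hsre
    simp at hsre
  have h2 := zp_logderiv hne1 (riemannZeta_ne_zero_of_one_lt_re hsre)
  have h3 : deriv riemannZeta (s.re : ℂ) / riemannZeta (s.re : ℂ) =
      deriv zetaPole (s.re : ℂ) / zetaPole (s.re : ℂ) - 1 / ((s.re : ℂ) - 1) := by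
    rw [h2]; ring
  have h4 := hM s.re ⟨hs.le, hs2⟩
  rw [Real.norm_of_nonneg (norm_nonneg _)] at h4
  have h5 : ‖1 / ((s.re : ℂ) - 1)‖ = 1 / (s.re - 1) := by
    rw [norm_div, norm_one, show ((s.re : ℂ) - 1) = ((s.re - 1 : ℝ) : ℂ) by push_cast; ring,
      norm_real, Real.norm_of_nonneg hc.le]
  rw [h3]
  calc _ ≤ M + 1 / (s.re - 1) := by
        refine (norm_sub_le _ _).trans ?_
        rw [h5]
        linarith
    _ ≤ M / (s.re - 1) + 1 / (s.re - 1) := by
        have : M ≤ M / (s.re - 1) := by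
          rw [le_div_iff₀ hc]
          nlinarith
        linarith
    _ = _ := by ring

private lemma int_inv (V : ℝ) (hV : 0 ≤ V) :
    ∫ y in (-V)..V, (1 + |y|)⁻¹ = 2 * Real.log (1 + V) := by
  have hint : ∀ a b : ℝ, IntervalIntegrable (fun y : ℝ => (1 + |y|)⁻¹) MeasureTheory.volume a b := by
    intro a b
    apply Continuous.intervalIntegrable
    refine Continuous.inv₀ (by fun_prop) fun y => ?_
    positivity
  have h1 : ∫ y in (0:ℝ)..V, (1 + |y|)⁻¹ = Real.log (1 + V) := by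
    have e1 : ∫ y in (0:ℝ)..V, (1 + |y|)⁻¹ = ∫ y in (0:ℝ)..V, (1 + y)⁻¹ := by
      apply intervalIntegral.integral_congr
      intro y hy
      rw [Set.uIcc_of_le hV] at hy
      simp only
      rw [abs_of_nonneg hy.1]
    rw [e1, intervalIntegral.integral_comp_add_left (fun y : ℝ => y⁻¹) 1,
      integral_inv_of_pos (by norm_num) (by linarith)]
    simp
  have h2 : ∫ y in (-V)..0, (1 + |y|)⁻¹ = ∫ y in (0:ℝ)..V, (1 + |y|)⁻¹ := by
    have := intervalIntegral.integral_comp_neg (a := 0) (b := V) (fun y : ℝ => (1 + |y|)⁻¹)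
    simp only [abs_neg, neg_zero] at this
    exact this.symm
  rw [← intervalIntegral.integral_add_adjacent_intervals (hint (-V) 0) (hint 0 V), h2, h1]
  ring

private lemma tail_inv {V : ℝ} (hV : 0 < V) {g : ℝ → ℂ} {B : ℝ}
    (hg : MeasureTheory.Integrable g) (hb : ∀ y : ℝ, V < |y| → ‖g y‖ ≤ B * (y ^ 2)⁻¹) :
    ‖∫ y, g y‖ ≤ ‖∫ y in (-V)..V, g y‖ + 2 * B / V := by
  have hpos : ∫ y in Set.Ioi V, (y ^ 2)⁻¹ = V⁻¹ := by
    have h := integral_Ioi_rpow_of_lt (a := -2) (by norm_num) hV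
    have e : ∀ y ∈ Set.Ioi V, (y ^ 2)⁻¹ = y ^ (-2 : ℝ) := by
      intro y hy
      have hy0 : 0 < y := hV.trans hy
      rw [Real.rpow_neg hy0.le]
      norm_num
    rw [MeasureTheory.setIntegral_congr_fun measurableSet_Ioi e, h]
    norm_num
    rw [Real.rpow_neg_one]
  have hi : MeasureTheory.IntegrableOn (fun y : ℝ => (y ^ 2)⁻¹) (Set.Ioi V) := by
    have h := integrableOn_Ioi_rpow_of_lt (a := -2) (by norm_num) hV
    refine h.congr_fun (fun y hy => ?_) measurableSet_Ioi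
    have hy0 : 0 < y := hV.trans hy
    simp only
    rw [Real.rpow_neg hy0.le]
    norm_num
  have key : ∀ k : ℝ → ℂ, MeasureTheory.Integrable k → (∀ y : ℝ, V < |y| → ‖k y‖ ≤ B * (y ^ 2)⁻¹) →
      ‖∫ y in Set.Ioi V, k y‖ ≤ B / V := by
    intro k hk hkb
    have := MeasureTheory.norm_integral_le_of_norm_le (μ := MeasureTheory.volume.restrict (Set.Ioi V))
      (f := k) (g := fun y => B * (y ^ 2)⁻¹) (hi.const_mul B) ?_
    · refine this.trans (le_of_eq ?_)
      rw [MeasureTheory.integral_const_mul, hpos]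
      rfl
    · rw [MeasureTheory.ae_restrict_iff' measurableSet_Ioi]
      refine Filter.Eventually.of_forall fun y hy => ?_
      exact hkb y (lt_of_lt_of_le hy (le_abs_self y))
  have h1 := key g hg hb
  have h2 : ‖∫ y in Set.Iic (-V), g y‖ ≤ B / V := by
    have e : ∫ y in Set.Iic (-V), g y = ∫ y in Set.Ioi V, g (-y) := by
      have := integral_comp_neg_Ioi V g
      exact this.symm
    rw [e]
    refine key _ hg.comp_neg fun y hy => ?_
    have := hb (-y) (by rwa [abs_neg])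
    simpa using this
  have h3 : ∫ y, g y = (∫ y in Set.Iic (-V), g y) + (∫ y in (-V)..V, g y) +
      ∫ y in Set.Ioi V, g y := by
    have e1 := intervalIntegral.integral_Iic_add_Ioi (b := V) hg.integrableOn hg.integrableOn
    have e2 := intervalIntegral.integral_Iic_sub_Iic (a := -V) (b := V) hg.integrableOn
      hg.integrableOn
    rw [← e1, ← e2]
    ring
  rw [h3]
  refine (norm_add₃_le).trans ?_
  have : 2 * B / V = B / V + B / V := by ring
  rw [this]
  linarith

theorem shiftB {θ ε : ℝ} (hθ : 1 / 2 ≤ θ) (hθ1 : θ < 1) (hε : 0 < ε) (hε1 : θ + ε ≤ 1) :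
    ∃ C : ℝ, 1 ≤ C ∧ ∀ (t U X1 X2 : ℝ) (K : ℕ), 4 ≤ t → 4 ≤ U → U ≤ t / 2 → 3 ≤ X1 → X1 ≤ X2 →
      X2 ≤ 2 * X1 → X2 ≤ K →
      (∀ s : ℂ, riemannZeta s = 0 → θ < s.re → U < |s.im - t|) →
      ‖∑ n ∈ Finset.Icc 1 K, ((ArithmeticFunction.vonMangoldt n : ℝ) : ℂ) *
          (n : ℂ) ^ (-(t * I)) * ((max (X2 - n) 0 - max (X1 - n) 0 : ℝ) : ℂ)‖ ≤
        C * Real.log (t * X2) ^ 2 * ((X2 - X1) * X2 ^ (θ + ε) + X2 ^ 2 / U) := by
  obtain ⟨C1, hC1, hlog⟩ := logd hθ hθ1 hε (by linarith)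
  obtain ⟨C0, hC0, hlam⟩ := lam_bound
  refine ⟨6 * C1 + 18 * C1 + 24 * C0, by linarith, ?_⟩
  intro t U X1 X2 K ht hU hUt hX1 hX12 _ hXK hz
  have hX2 : 3 ≤ X2 := hX1.trans hX12
  have hX2p : 0 < X2 := by linarith
  have hX1p : 0 < X1 := by linarith
  have he1 : Real.exp 1 < 3 := lt_trans Real.exp_one_lt_d9 (by norm_num)
  have hlX : 1 ≤ Real.log X2 := by
    rw [Real.le_log_iff_exp_le hX2p]
    linarith
  have hlXp : 0 < Real.log X2 := by linarith
  set c : ℝ := 1 + 1 / Real.log X2 with hc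
  have hc1 : 1 < c := by
    have : 0 < 1 / Real.log X2 := by positivity
    rw [hc]; linarith
  have hc2 : c ≤ 2 := by
    have : 1 / Real.log X2 ≤ 1 := by
      rw [div_le_one hlXp]; exact hlX
    rw [hc]; linarith
  have hXc : X2 ^ c = Real.exp 1 * X2 := by
    rw [hc, Real.rpow_add hX2p, Real.rpow_one, Real.rpow_def_of_pos hX2p,
      mul_one_div_cancel hlXp.ne']
    ring
  set V : ℝ := U - 2 with hV
  have hV2 : U / 2 ≤ V := by rw [hV]; linarith
  have hVp : 0 < V := by linarith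
  set L : ℝ := Real.log (t * X2) with hL
  have hLeq : L = Real.log t + Real.log X2 := by
    rw [hL, Real.log_mul (by linarith) hX2p.ne']
  have hlt : 0 ≤ Real.log t := Real.log_nonneg (by linarith)
  have hL1 : 1 ≤ L := by linarith
  have hLt : Real.log t ≤ L := by linarith
  have hLX : Real.log X2 ≤ L := by linarith
  set Φ : ℂ → ℂ := fun w => kernR X1 X2 w *
    (-(deriv riemannZeta (w + t * I) / riemannZeta (w + t * I))) with hΦ
  have hre : ∀ x y : ℝ, ((x : ℂ) + y * I).re = x := by intro x y; simp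
  have him : ∀ x y : ℝ, ((x : ℂ) + y * I).im = y := by intro x y; simp
  -- Perron
  have hP := perronR (a := twC t) (c := c) (by linarith) (summ_tw (by simpa using hc1)) hX1p hX12 hXK
  have hPΦ : ∀ y : ℝ, kernR X1 X2 ((c : ℂ) + y * I) * LSeries (twC t) ((c : ℂ) + y * I) =
      Φ ((c : ℂ) + y * I) := by
    intro y
    rw [lser_tw (by rw [hre]; exact hc1)]
  simp_rw [hPΦ] at hP
  have hsum : ∑ n ∈ Finset.Icc 1 K, ((ArithmeticFunction.vonMangoldt n : ℝ) : ℂ) *
          (n : ℂ) ^ (-(t * I)) * ((max (X2 - n) 0 - max (X1 - n) 0 : ℝ) : ℂ) =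
      ∑ n ∈ Finset.Icc 1 K, twC t n * ((max (X2 - n) 0 - max (X1 - n) 0 : ℝ) : ℂ) := rfl
  rw [hsum, hP]
  -- the shifted point
  have hshre : ∀ w : ℂ, (w + t * I).re = w.re := by intro w; simp
  have hshim : ∀ w : ℂ, (w + t * I).im = w.im + t := by intro w; simp
  have hbox : ∀ w : ℂ, θ + ε ≤ w.re → w.re ≤ c → |w.im| ≤ V →
      riemannZeta (w + t * I) ≠ 0 ∧
      ‖deriv riemannZeta (w + t * I) / riemannZeta (w + t * I)‖ ≤ C1 * Real.log t := by
    intro w h1 h2 h3
    refine hlog t U ht hU hUt hz (w + t * I) (by rw [hshre]; exact h1) (by rw [hshre]; linarith) ?_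
    rw [hshim]
    simpa using h3
  have hne1 : ∀ w : ℂ, |w.im| ≤ V → w + t * I ≠ 1 := by
    intro w h3 h
    have h4 := congrArg Complex.im h
    rw [hshim, one_im] at h4
    have := neg_abs_le w.im
    linarith
  have hdζ : ∀ w : ℂ, w + t * I ≠ 1 → riemannZeta (w + t * I) ≠ 0 →
      DifferentiableAt ℂ (fun w : ℂ => -(deriv riemannZeta (w + t * I) /
        riemannZeta (w + t * I))) w := by
    intro w h1 h2
    have a1 : AnalyticAt ℂ riemannZeta (w + t * I) := by
      rw [Complex.analyticAt_iff_eventually_differentiableAt]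
      filter_upwards [isOpen_ne.mem_nhds h1] with z hz
      exact differentiableAt_riemannZeta hz
    have a2 : DifferentiableAt ℂ (deriv riemannZeta) (w + t * I) := a1.deriv.differentiableAt
    have a3 : DifferentiableAt ℂ (fun w : ℂ => w + t * I) w := by fun_prop
    have a4 : DifferentiableAt ℂ (fun w : ℂ => deriv riemannZeta (w + t * I)) w :=
      DifferentiableAt.comp (g := deriv riemannZeta) w a2 a3
    have a5 : DifferentiableAt ℂ (fun w : ℂ => riemannZeta (w + t * I)) w :=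
      DifferentiableAt.comp (g := riemannZeta) w a1.differentiableAt a3
    exact (a4.div a5 h2).neg
  -- integrability on the line `re = c`
  have hkint : MeasureTheory.Integrable fun y : ℝ ↦ kernR X1 X2 ((c : ℂ) + y * I) := by
    have i1 := integrable_kern_part (c := c) (by linarith) hX2p 1
    have i2 := integrable_kern_part (c := c) (by linarith) hX1p 1
    refine (i1.sub i2).congr (Filter.Eventually.of_forall fun y ↦ ?_)
    simp only [kernR, Pi.sub_apply]
    push_cast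
    rw [one_cpow]
    ring
  have hlinec : ∀ y : ℝ, ‖deriv riemannZeta ((c : ℂ) + y * I + t * I) /
      riemannZeta ((c : ℂ) + y * I + t * I)‖ ≤ C0 * Real.log X2 := by
    intro y
    have h1 := hlam ((c : ℂ) + y * I + t * I) (by rw [hshre, hre]; exact hc1)
      (by rw [hshre, hre]; exact hc2)
    rw [hshre, hre] at h1
    refine h1.trans (le_of_eq ?_)
    rw [hc]
    simp
  have hcontc : Continuous fun y : ℝ => -(deriv riemannZeta ((c : ℂ) + y * I + t * I) /
      riemannZeta ((c : ℂ) + y * I + t * I)) := by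
    rw [continuous_iff_continuousAt]
    intro y
    have hgt : 1 < ((c : ℂ) + y * I + t * I).re := by rw [hshre, hre]; exact hc1
    have h1 := hdζ ((c : ℂ) + y * I) (by
      intro h
      rw [h, one_re] at hgt
      exact lt_irrefl _ hgt) (riemannZeta_ne_zero_of_one_lt_re hgt)
    exact ContinuousAt.comp (g := fun w : ℂ => -(deriv riemannZeta (w + t * I) /
        riemannZeta (w + t * I))) (f := fun y : ℝ => (c : ℂ) + y * I) h1.continuousAt
      (by fun_prop)
  have hint : MeasureTheory.Integrable fun y : ℝ => Φ ((c : ℂ) + y * I) := by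
    refine hkint.mul_bdd (c := C0 * Real.log X2) hcontc.aestronglyMeasurable ?_
    refine Filter.Eventually.of_forall fun y => ?_
    rw [norm_neg]
    exact hlinec y
  -- the tail
  have htail : ∀ y : ℝ, V < |y| → ‖Φ ((c : ℂ) + y * I)‖ ≤
      (2 * (Real.exp 1 * X2 ^ 2) * (C0 * Real.log X2)) * (y ^ 2)⁻¹ := by
    intro y hy
    have hy0 : 0 < |y| := hVp.trans hy
    have hwn : |y| ≤ ‖(c : ℂ) + y * I‖ := by
      have := abs_im_le_norm ((c : ℂ) + y * I)
      rwa [him] at this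
    have k2 := kern2 hX1p hX12 (w := (c : ℂ) + y * I) (by rw [hre]; linarith)
    rw [hre, Real.rpow_add hX2p, hXc, Real.rpow_one] at k2
    have k3 : ‖kernR X1 X2 ((c : ℂ) + y * I)‖ ≤ 2 * (Real.exp 1 * X2 ^ 2) * (y ^ 2)⁻¹ := by
      refine k2.trans ?_
      rw [← div_eq_mul_inv, ← sq_abs y]
      have : 2 * (Real.exp 1 * X2 * X2) = 2 * (Real.exp 1 * X2 ^ 2) := by ring
      rw [this]
      gcongr
    simp only [hΦ]
    rw [norm_mul, norm_neg]
    calc _ ≤ (2 * (Real.exp 1 * X2 ^ 2) * (y ^ 2)⁻¹) * (C0 * Real.log X2) := by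
          gcongr
          exact hlinec y
      _ = _ := by ring
  have h1 := tail_inv hVp hint htail
  -- the rectangle
  have hσc : θ + ε ≤ c := by linarith
  have hdiff : ∀ s : ℂ, θ + ε ≤ s.re → s.re ≤ c → |s.im| ≤ V → DifferentiableAt ℂ Φ s := by
    intro s a1 a2 a3
    exact (kern_diff hX1p hX2p (by linarith)).mul (hdζ s (hne1 s a3) (hbox s a1 a2 a3).1)
  have hside : ∀ s : ℂ, θ + ε ≤ s.re → s.re ≤ c → |s.im| = V →
      ‖Φ s‖ ≤ (X2 - X1) * (Real.exp 1 * X2) / V * (C1 * Real.log t) := by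
    intro s a1 a2 a3
    have hs0 : 0 < s.re := by linarith
    have k1 := kern1 hX1p hX12 hs0
    have hsn : V ≤ ‖s‖ := by rw [← a3]; exact abs_im_le_norm s
    have k2 := (hbox s a1 a2 a3.le).2
    simp only [hΦ]
    rw [norm_mul, norm_neg]
    have hx : 0 ≤ X2 - X1 := by linarith
    have k3 : X2 ^ s.re ≤ Real.exp 1 * X2 := by
      rw [← hXc]
      exact Real.rpow_le_rpow_of_exponent_le (by linarith) a2
    calc _ ≤ ((X2 - X1) * X2 ^ s.re / ‖s‖) * (C1 * Real.log t) := by gcongr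
      _ ≤ _ := by gcongr
  have h2 := rect_bound hσc hVp.le hdiff hside
  -- the left side
  have hleft : ‖∫ y : ℝ in (-V)..V, Φ (((θ + ε : ℝ) : ℂ) + y * I)‖ ≤
      (3 * ((X2 - X1) * X2 ^ (θ + ε)) * (C1 * Real.log t)) * (2 * Real.log (1 + V)) := by
    rw [← int_inv V hVp.le, ← intervalIntegral.integral_const_mul]
    refine intervalIntegral.norm_integral_le_of_norm_le (by linarith) ?_ ?_
    · refine Filter.Eventually.of_forall fun y hy => ?_
      have hy' : |y| ≤ V := abs_le.2 ⟨hy.1.le, hy.2⟩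
      have k1 := kern1 hX1p hX12 (w := ((θ + ε : ℝ) : ℂ) + y * I) (by rw [hre]; linarith)
      have k2 := (hbox (((θ + ε : ℝ) : ℂ) + y * I) (by rw [hre]) (by rw [hre]; exact hσc)
        (by rw [him]; exact hy')).2
      have k3 := one_add_abs_le_norm (w := ((θ + ε : ℝ) : ℂ) + y * I) (by rw [hre]; linarith)
      rw [him] at k3
      rw [hre] at k1
      simp only [hΦ]
      rw [norm_mul, norm_neg]
      have hx : 0 ≤ X2 - X1 := by linarith
      have hyp : 0 < 1 + |y| := by positivity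
      have hnp : 0 < ‖((θ + ε : ℝ) : ℂ) + y * I‖ := by linarith
      have k4 : (X2 - X1) * X2 ^ (θ + ε) / ‖((θ + ε : ℝ) : ℂ) + y * I‖ ≤
          3 * ((X2 - X1) * X2 ^ (θ + ε)) * (1 + |y|)⁻¹ := by
        rw [← div_eq_mul_inv, div_le_div_iff₀ hnp hyp]
        have : 0 ≤ (X2 - X1) * X2 ^ (θ + ε) := by positivity
        nlinarith
      calc _ ≤ (3 * ((X2 - X1) * X2 ^ (θ + ε)) * (1 + |y|)⁻¹) * (C1 * Real.log t) := by
            gcongr
            exact k1.trans k4
        _ = _ := by ring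
    · apply Continuous.intervalIntegrable
      refine Continuous.mul continuous_const (Continuous.inv₀ (by fun_prop) fun y => ?_)
      positivity
  -- the total
  have hpi : ‖(1 / (2 * Real.pi) : ℂ)‖ ≤ 1 := by
    rw [norm_div, norm_one, norm_mul, norm_real, Real.norm_of_nonneg Real.pi_pos.le]
    simp only [Complex.norm_ofNat]
    rw [div_le_one (by positivity)]
    have := Real.pi_gt_three
    linarith
  rw [norm_mul]
  refine (mul_le_of_le_one_left (norm_nonneg _) hpi).trans ?_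
  refine h1.trans ?_
  have hx : 0 ≤ X2 - X1 := by linarith
  set P : ℝ := (X2 - X1) * X2 ^ (θ + ε) with hPd
  have hPp : 0 ≤ P := by positivity
  set Q : ℝ := X2 ^ 2 / U with hQ
  have hQp : 0 ≤ Q := by positivity
  have hVQ : X2 ^ 2 / V ≤ 2 * Q := by
    rw [hQ]
    calc X2 ^ 2 / V ≤ X2 ^ 2 / (U / 2) := by gcongr
      _ = _ := by field_simp
  have hlV : Real.log (1 + V) ≤ L := by
    refine le_trans (Real.log_le_log (by linarith) ?_) hLt
    linarith
  have hlV0 : 0 ≤ Real.log (1 + V) := Real.log_nonneg (by linarith)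
  have hL2 : L ≤ L ^ 2 := by nlinarith
  have hC1p : 0 ≤ C1 := by linarith
  have hC0p : 0 ≤ C0 := by linarith
  have e1 : (3 * P * (C1 * Real.log t)) * (2 * Real.log (1 + V)) ≤ 6 * C1 * L ^ 2 * P := by
    calc _ ≤ (3 * P * (C1 * L)) * (2 * L) := by gcongr
      _ = _ := by ring
  have e2 : 2 * ((X2 - X1) * (Real.exp 1 * X2) / V * (C1 * Real.log t) * (c - (θ + ε))) ≤
      18 * C1 * L ^ 2 * Q := by
    have a1 : (X2 - X1) * (Real.exp 1 * X2) / V ≤ 3 * (2 * Q) := by
      calc (X2 - X1) * (Real.exp 1 * X2) / V ≤ X2 * (3 * X2) / V := by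
            gcongr
            linarith
        _ = 3 * (X2 ^ 2 / V) := by ring
        _ ≤ _ := by gcongr
    have a2 : c - (θ + ε) ≤ 3 / 2 := by linarith
    calc _ ≤ 2 * ((3 * (2 * Q)) * (C1 * L ^ 2) * (3 / 2)) := by
          have a3 : Real.log t ≤ L ^ 2 := hLt.trans hL2
          have a4 : 0 ≤ c - (θ + ε) := by linarith
          gcongr
      _ = _ := by ring
  have e3 : 2 * (2 * (Real.exp 1 * X2 ^ 2) * (C0 * Real.log X2)) / V ≤ 24 * C0 * L ^ 2 * Q := by
    have a3 : Real.log X2 ≤ L ^ 2 := hLX.trans hL2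
    calc 2 * (2 * (Real.exp 1 * X2 ^ 2) * (C0 * Real.log X2)) / V
        = 4 * Real.exp 1 * (C0 * Real.log X2) * (X2 ^ 2 / V) := by ring
      _ ≤ 4 * 3 * (C0 * L ^ 2) * (2 * Q) := by gcongr
      _ = _ := by ring
  have hL2p : 0 ≤ L ^ 2 := sq_nonneg L
  calc _ ≤ 6 * C1 * L ^ 2 * P + 18 * C1 * L ^ 2 * Q + 24 * C0 * L ^ 2 * Q := by
        linarith
    _ ≤ _ := by
        have b1 : 0 ≤ C1 * L ^ 2 * P := by positivity
        have b2 : 0 ≤ C1 * L ^ 2 * Q := by positivity
        have b3 : 0 ≤ C0 * L ^ 2 * P := by positivity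
        nlinarith

end Pool.Agent.H76.PS
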