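import Mathlib
import Pool.Agent.H76.PS.ShiftB

/-!
# PsiB: `∑_{n ≤ M} Λ(n) n^(-it)` when there are no zeros near the height `t`

`X1 = M`, `X2 = M + h`, `h = M/√U ≤ M/2` (`U ≥ 4`); for `n ≤ M` the weight is `h`, for
`M < n ≤ M + h` it is in `[0, h]`, for larger `n` it is 0, so
`|h ∑_{n ≤ M} Λ(n) n^(-it) - S| ≤ h ∑_{M < n ≤ M+h} Λ(n) ≤ h (h + 1) log(2M)`.
`shiftB`: `‖S‖/h ≤ C log(t X2)^2 ((2M)^(θ+ε) + 4M^2/(h U))`, `M^2/(hU) = M/√U`.
`M < 3`: trivial.  About 90 lines.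
-/

set_option autoImplicit false

open Complex

namespace Pool.Agent.H76.PS

theorem psiB {θ ε : ℝ} (hθ : 1 / 2 ≤ θ) (hθ1 : θ < 1) (hε : 0 < ε) (hε1 : θ + ε ≤ 1) :
    ∃ C : ℝ, 1 ≤ C ∧ ∀ (t U : ℝ) (M : ℕ), 4 ≤ t → 4 ≤ U → U ≤ t / 2 → 1 ≤ M →
      (∀ s : ℂ, riemannZeta s = 0 → θ < s.re → U < |s.im - t|) →
      ‖∑ n ∈ Finset.Icc 1 M, ((ArithmeticFunction.vonMangoldt n : ℝ) : ℂ) *
          (n : ℂ) ^ (-(t * I))‖ ≤
        C * Real.log (t * M) ^ 2 * ((M : ℝ) ^ (θ + ε) + M / √U) := by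
  obtain ⟨C, hC, hsh⟩ := shiftB hθ hθ1 hε hε1
  refine ⟨16 * C + 1, by linarith, ?_⟩
  intro t U M ht hU hUt hM hz
  have hM1 : (1 : ℝ) ≤ M := by exact_mod_cast hM
  have hMp : (0 : ℝ) < M := by linarith
  have hU0 : 0 < U := by linarith
  have hsU : 0 < √U := Real.sqrt_pos.2 hU0
  have hsU2 : 2 ≤ √U := Real.le_sqrt_of_sq_le (by linarith)
  have hsq : √U * √U = U := Real.mul_self_sqrt hU0.le
  have htM : 4 ≤ t * M := by nlinarith
  have hlog1 : 1 ≤ Real.log (t * M) := by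
    have h1 : Real.exp 1 ≤ 4 := by
      have := Real.exp_one_lt_d9
      linarith
    rw [Real.le_log_iff_exp_le (by linarith)]
    linarith
  set L : ℝ := Real.log (t * M) with hL
  have hL2 : L ≤ L ^ 2 := by nlinarith
  have hL2' : 1 ≤ L ^ 2 := by nlinarith
  have hMa : 1 ≤ (M : ℝ) ^ (θ + ε) := Real.one_le_rpow hM1 (by linarith)
  have hMU : 0 ≤ (M : ℝ) / √U := by positivity
  -- the coefficients
  set a : ℕ → ℂ := fun n => ((ArithmeticFunction.vonMangoldt n : ℝ) : ℂ) *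
    (n : ℂ) ^ (-(t * I)) with ha
  have hnorm : ∀ n : ℕ, 1 ≤ n → ‖a n‖ ≤ ArithmeticFunction.vonMangoldt n := by
    intro n hn
    simp only [ha]
    rw [norm_mul, norm_real, Real.norm_of_nonneg ArithmeticFunction.vonMangoldt_nonneg,
      Complex.norm_natCast_cpow_of_pos (by omega)]
    simp
  have hnlog : ∀ n : ℕ, 1 ≤ n → ‖a n‖ ≤ Real.log n := fun n hn =>
    (hnorm n hn).trans ArithmeticFunction.vonMangoldt_le_log
  by_cases hM3 : M < 3
  · -- trivial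
    have h1 : ‖∑ n ∈ Finset.Icc 1 M, a n‖ ≤ 1 := by
      have h2 : Real.log 2 ≤ 1 := by
        have := Real.log_two_lt_d9
        linarith
      interval_cases M
      · have := hnlog 1 le_rfl
        simp at this
        simp [this]
      · have e : Finset.Icc 1 2 = {1, 2} := rfl
        rw [e, Finset.sum_pair (by norm_num)]
        have b1 := hnlog 1 le_rfl
        have b2 := hnlog 2 (by norm_num)
        rw [Nat.cast_one, Real.log_one] at b1
        refine (norm_add_le _ _).trans ?_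
        push_cast at b2
        linarith
    refine h1.trans ?_
    have h3 : (1 : ℝ) ≤ (M : ℝ) ^ (θ + ε) + M / √U := by linarith
    calc (1 : ℝ) = 1 * 1 * 1 := by norm_num
      _ ≤ (16 * C + 1) * L ^ 2 * ((M : ℝ) ^ (θ + ε) + M / √U) := by
        gcongr
        linarith
  have hM3' : (3 : ℝ) ≤ M := by exact_mod_cast (not_lt.1 hM3)
  set h : ℝ := M / √U with hh
  have hhp : 0 < h := by positivity
  have hhM : h ≤ M / 2 := by
    rw [hh]
    gcongr
  set K : ℕ := 2 * M with hK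
  have hKr : (K : ℝ) = 2 * M := by rw [hK]; push_cast; ring
  have key := hsh t U M (M + h) K ht hU hUt hM3' (by linarith) (by linarith)
    (by rw [hKr]; linarith) hz
  set w : ℕ → ℝ := fun n => max ((M : ℝ) + h - n) 0 - max ((M : ℝ) - n) 0 with hw
  have hw1 : ∀ n : ℕ, n ≤ M → w n = h := by
    intro n hn
    have hn' : (n : ℝ) ≤ M := by exact_mod_cast hn
    simp only [hw]
    rw [max_eq_left (by linarith), max_eq_left (by linarith)]
    ring
  have hw2 : ∀ n : ℕ, M < n → 0 ≤ w n ∧ w n ≤ h := by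
    intro n hn
    have hn' : (M : ℝ) < n := by exact_mod_cast hn
    simp only [hw]
    rw [max_eq_right (a := (M : ℝ) - n) (by linarith), sub_zero]
    exact ⟨le_max_right _ _, max_le (by linarith) hhp.le⟩
  have hw3 : ∀ n : ℕ, M + ⌊h⌋₊ < n → w n = 0 := by
    intro n hn
    have hn1 : ((M + ⌊h⌋₊ + 1 : ℕ) : ℝ) ≤ n := by exact_mod_cast hn
    push_cast at hn1
    have h2 := Nat.lt_floor_add_one h
    simp only [hw]
    rw [max_eq_right (a := (M : ℝ) - n) (by linarith), max_eq_right (by linarith), sub_zero]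
  have hfl : (⌊h⌋₊ : ℝ) ≤ h := Nat.floor_le hhp.le
  have hflM : ⌊h⌋₊ ≤ M := by
    have : (⌊h⌋₊ : ℝ) ≤ M := by linarith
    exact_mod_cast this
  -- splitting
  have hsplit : ∑ n ∈ Finset.Icc 1 K, a n * ((w n : ℝ) : ℂ) =
      (h : ℂ) * ∑ n ∈ Finset.Icc 1 M, a n +
        ∑ n ∈ Finset.Ioc M (M + ⌊h⌋₊), a n * ((w n : ℝ) : ℂ) := by
    have e1 : Finset.Icc 1 K = Finset.Icc 1 M ∪ (Finset.Ioc M (M + ⌊h⌋₊) ∪
        Finset.Ioc (M + ⌊h⌋₊) K) := by
      ext n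
      simp only [Finset.mem_union, Finset.mem_Icc, Finset.mem_Ioc]
      omega
    have d2 : Disjoint (Finset.Ioc M (M + ⌊h⌋₊)) (Finset.Ioc (M + ⌊h⌋₊) K) := by
      rw [Finset.disjoint_left]
      intro n hn1 hn2
      rw [Finset.mem_Ioc] at hn1 hn2
      omega
    have d1 : Disjoint (Finset.Icc 1 M) (Finset.Ioc M (M + ⌊h⌋₊) ∪
        Finset.Ioc (M + ⌊h⌋₊) K) := by
      rw [Finset.disjoint_left]
      intro n hn1 hn2
      rw [Finset.mem_union, Finset.mem_Ioc, Finset.mem_Ioc] at hn2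
      rw [Finset.mem_Icc] at hn1
      omega
    rw [e1, Finset.sum_union d1, Finset.sum_union d2]
    have s1 : ∑ n ∈ Finset.Icc 1 M, a n * ((w n : ℝ) : ℂ) =
        (h : ℂ) * ∑ n ∈ Finset.Icc 1 M, a n := by
      rw [Finset.mul_sum]
      refine Finset.sum_congr rfl fun n hn => ?_
      rw [hw1 n (Finset.mem_Icc.1 hn).2, mul_comm]
    have s2 : ∑ n ∈ Finset.Ioc (M + ⌊h⌋₊) K, a n * ((w n : ℝ) : ℂ) = 0 := by
      refine Finset.sum_eq_zero fun n hn => ?_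
      rw [hw3 n (Finset.mem_Ioc.1 hn).1]
      simp
    rw [s1, s2, add_zero]
  have hlast : ‖∑ n ∈ Finset.Ioc M (M + ⌊h⌋₊), a n * ((w n : ℝ) : ℂ)‖ ≤ h * (h * L) := by
    have b1 : ∀ n ∈ Finset.Ioc M (M + ⌊h⌋₊), ‖a n * ((w n : ℝ) : ℂ)‖ ≤ h * L := by
      intro n hn
      rw [Finset.mem_Ioc] at hn
      obtain ⟨c1, c2⟩ := hw2 n hn.1
      rw [norm_mul, norm_real, Real.norm_of_nonneg c1, mul_comm]
      have c3 : ‖a n‖ ≤ L := by
        refine (hnlog n (by omega)).trans ?_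
        have hn0 : (0 : ℝ) < n := by
          have : (0 : ℕ) < n := by omega
          exact_mod_cast this
        refine Real.log_le_log hn0 ?_
        have : (n : ℝ) ≤ 2 * M := by
          have : n ≤ 2 * M := by omega
          exact_mod_cast this
        nlinarith
      gcongr
    refine (norm_sum_le_of_le _ b1).trans ?_
    rw [Finset.sum_const, Nat.card_Ioc, nsmul_eq_mul]
    have : M + ⌊h⌋₊ - M = ⌊h⌋₊ := by omega
    rw [this]
    have : 0 ≤ h * L := by positivity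
    nlinarith
  have key2 : ‖∑ n ∈ Finset.Icc 1 K, a n * ((w n : ℝ) : ℂ)‖ ≤
      C * Real.log (t * (M + h)) ^ 2 * ((M + h - M) * (M + h) ^ (θ + ε) + (M + h) ^ 2 / U) := key
  have hfin : h * ‖∑ n ∈ Finset.Icc 1 M, a n‖ ≤
      C * Real.log (t * (M + h)) ^ 2 * ((M + h - M) * (M + h) ^ (θ + ε) + (M + h) ^ 2 / U) +
        h * (h * L) := by
    have e : (h : ℂ) * ∑ n ∈ Finset.Icc 1 M, a n =
        ∑ n ∈ Finset.Icc 1 K, a n * ((w n : ℝ) : ℂ) -
          ∑ n ∈ Finset.Ioc M (M + ⌊h⌋₊), a n * ((w n : ℝ) : ℂ) := by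
      rw [hsplit]; ring
    have e2 : h * ‖∑ n ∈ Finset.Icc 1 M, a n‖ = ‖(h : ℂ) * ∑ n ∈ Finset.Icc 1 M, a n‖ := by
      rw [norm_mul, norm_real, Real.norm_of_nonneg hhp.le]
    rw [e2, e]
    refine (norm_sub_le _ _).trans ?_
    linarith
  have hlog2 : Real.log (t * (M + h)) ≤ 2 * L := by
    have e : 2 * L = Real.log ((t * M) ^ 2) := by
      rw [Real.log_pow, hL]
      push_cast
      ring
    rw [e]
    refine Real.log_le_log (by positivity) ?_
    have : t * (M + h) ≤ t * M * 2 := by nlinarith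
    nlinarith
  have hlog0 : 0 ≤ Real.log (t * (M + h)) := Real.log_nonneg (by nlinarith)
  have hX : (M + h) ^ (θ + ε) ≤ 2 * (M : ℝ) ^ (θ + ε) := by
    have h1 : (M + h) ^ (θ + ε) ≤ (2 * (M : ℝ)) ^ (θ + ε) :=
      Real.rpow_le_rpow (by linarith) (by linarith) (by linarith)
    rw [Real.mul_rpow (by norm_num) hMp.le] at h1
    have h2 : (2 : ℝ) ^ (θ + ε) ≤ 2 := by
      have := Real.rpow_le_rpow_of_exponent_le (x := 2) (by norm_num) hε1
      rwa [Real.rpow_one] at this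
    have h3 : 0 ≤ (M : ℝ) ^ (θ + ε) := by positivity
    nlinarith
  have hX2 : (M + h) ^ 2 / U ≤ h * (4 * (M / √U)) := by
    have e : h * (4 * (M / √U)) = (2 * M) ^ 2 / U := by
      have e3 : (2 * (M : ℝ)) ^ 2 / U = (2 * M) ^ 2 / (√U * √U) := by rw [hsq]
      rw [e3, hh]
      field_simp
      ring
    rw [e]
    gcongr
    linarith
  have hA : C * Real.log (t * (M + h)) ^ 2 * ((M + h - M) * (M + h) ^ (θ + ε) +
      (M + h) ^ 2 / U) ≤ C * (2 * L) ^ 2 * (h * (2 * (M : ℝ) ^ (θ + ε)) + h * (4 * (M / √U))) := by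
    have e0 : (M : ℝ) + h - M = h := by ring
    rw [e0]
    gcongr
  have hB : h * ‖∑ n ∈ Finset.Icc 1 M, a n‖ ≤
      h * ((16 * C + 1) * L ^ 2 * ((M : ℝ) ^ (θ + ε) + M / √U)) := by
    refine hfin.trans ?_
    have hC0 : 0 ≤ C := by linarith
    have p1 : 0 ≤ C * L ^ 2 * (M : ℝ) ^ (θ + ε) := by positivity
    have p2 : 0 ≤ L ^ 2 * (M : ℝ) ^ (θ + ε) := by positivity
    have p3 : h * L ≤ L ^ 2 * (M / √U) := by
      have : h = M / √U := hh
      rw [← this]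
      nlinarith
    have p4 : C * (2 * L) ^ 2 * (h * (2 * (M : ℝ) ^ (θ + ε)) + h * (4 * (M / √U))) + h * (h * L) ≤
        h * ((16 * C + 1) * L ^ 2 * ((M : ℝ) ^ (θ + ε) + M / √U)) := by
      have e1 : h * ((16 * C + 1) * L ^ 2 * ((M : ℝ) ^ (θ + ε) + M / √U)) -
          (C * (2 * L) ^ 2 * (h * (2 * (M : ℝ) ^ (θ + ε)) + h * (4 * (M / √U))) + h * (h * L)) =
          h * (8 * (C * L ^ 2 * (M : ℝ) ^ (θ + ε)) + L ^ 2 * (M : ℝ) ^ (θ + ε) +
            (L ^ 2 * (M / √U) - h * L)) := by ring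
      have e2 : 0 ≤ h * (8 * (C * L ^ 2 * (M : ℝ) ^ (θ + ε)) + L ^ 2 * (M : ℝ) ^ (θ + ε) +
            (L ^ 2 * (M / √U) - h * L)) := by
        apply mul_nonneg hhp.le
        linarith
      linarith
    linarith
  exact le_of_mul_le_mul_left hB hhp

end Pool.Agent.H76.PS
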